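import Mathlib

set_option autoImplicit false

open MeasureTheory Set Filter Topology

namespace Pool.Agent.Zk99.PR

/-- the punctured interval -/
def PI (r : ℝ) : Set ℝ := {x : ℝ | x ≠ 0 ∧ |x| ≤ r}

lemma PI_meas (r : ℝ) : MeasurableSet (PI r) := by
  have h1 : MeasurableSet {x : ℝ | x ≠ 0} := (measurableSet_singleton (0 : ℝ)).compl
  exact h1.inter (measurableSet_le continuous_abs.measurable measurable_const)

lemma shell_sum {μ : Measure ℝ} [IsFiniteMeasure μ] {φ : ℝ → ℝ} (hφ : Integrable φ μ)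
    (h0 : ∀ x, 0 ≤ φ x) (h1 : ∀ x, φ x ≤ 1) {L : ℝ} (hL : 0 < L)
    (h2 : ∀ x, φ x * (L * x) ^ 2 ≤ 1) (J : ℕ) :
    ∫ x in PI (2 ^ J / L), φ x ∂μ ≤ μ.real (PI (1 / L)) +
      ∑ j ∈ Finset.range J, (1 / 4 : ℝ) ^ j * μ.real (PI (2 ^ (j + 1) / L)) := by
  induction J with
  | zero =>
    simp only [pow_zero, Finset.range_zero, Finset.sum_empty, add_zero]
    calc ∫ x in PI (1 / L), φ x ∂μ ≤ ∫ x in PI (1 / L), (1 : ℝ) ∂μ :=
          integral_mono hφ.integrableOn (integrable_const _) h1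
      _ = μ.real (PI (1 / L)) := by simp
  | succ J ih =>
    rw [Finset.sum_range_succ]
    obtain ⟨S, hS⟩ : ∃ S : Set ℝ, S = {x : ℝ | 2 ^ J / L < |x| ∧ |x| ≤ 2 ^ (J + 1) / L} := ⟨_, rfl⟩
    have hSm : MeasurableSet S := by
      rw [hS]
      exact (measurableSet_lt measurable_const continuous_abs.measurable).inter
        (measurableSet_le continuous_abs.measurable measurable_const)
    have hu : PI (2 ^ (J + 1) / L) = PI (2 ^ J / L) ∪ S := by
      rw [hS]
      ext x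
      simp only [PI, mem_union, mem_ofPred_eq]
      have h3 : (2 : ℝ) ^ J / L ≤ 2 ^ (J + 1) / L := by
        apply div_le_div_of_nonneg_right _ hL.le
        exact pow_le_pow_right₀ (by norm_num) (by omega)
      have h4 : (0 : ℝ) < 2 ^ J / L := by positivity
      constructor
      · rintro ⟨a, b⟩
        rcases le_or_gt |x| (2 ^ J / L) with h | h
        · exact Or.inl ⟨a, h⟩
        · exact Or.inr ⟨h, b⟩
      · rintro (⟨a, b⟩ | ⟨a, b⟩)
        · exact ⟨a, b.trans h3⟩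
        · refine ⟨?_, b⟩
          rintro rfl
          rw [abs_zero] at a
          linarith
    have hd : Disjoint (PI (2 ^ J / L)) S := by
      rw [hS, Set.disjoint_left]
      rintro x ⟨_, a⟩ ⟨b, _⟩
      linarith
    rw [hu, setIntegral_union hd hSm hφ.integrableOn hφ.integrableOn, ← hu, ← add_assoc]
    refine add_le_add ih ?_
    have h5 : S ⊆ PI (2 ^ (J + 1) / L) := by
      rw [hu]; exact subset_union_right
    calc ∫ x in S, φ x ∂μ ≤ ∫ x in S, (1 / 4 : ℝ) ^ J ∂μ := by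
          refine setIntegral_mono_on hφ.integrableOn (integrable_const _).integrableOn hSm ?_
          intro x hx
          rw [hS] at hx
          have h6 := h2 x
          have h7 : (2 : ℝ) ^ J < L * |x| := by
            have := hx.1
            rwa [div_lt_iff₀ hL, mul_comm] at this
          have h8 : (4 : ℝ) ^ J ≤ (L * x) ^ 2 := by
            have e1 : (L * x) ^ 2 = (L * |x|) ^ 2 := by rw [mul_pow, mul_pow, sq_abs]
            rw [e1, show (4 : ℝ) = 2 ^ 2 by norm_num, ← pow_mul, mul_comm, pow_mul]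
            exact pow_le_pow_left₀ (by positivity) h7.le 2
          have h9 : φ x * 4 ^ J ≤ 1 := (mul_le_mul_of_nonneg_left h8 (h0 x)).trans h6
          rw [one_div, inv_pow, ← one_div, le_div_iff₀ (by positivity)]
          exact h9
      _ = (1 / 4 : ℝ) ^ J * μ.real S := by
          rw [setIntegral_const, smul_eq_mul, mul_comm]
      _ ≤ _ := by
          apply mul_le_mul_of_nonneg_left _ (by positivity)
          exact measureReal_mono h5

/-- the geometric constant -/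
noncomputable def AA (θ : ℝ) : ℝ := 1 + 2 ^ θ / (1 - 2 ^ (θ - 2))

lemma AA_den {θ : ℝ} (h2 : θ < 2) : 0 < 1 - (2 : ℝ) ^ (θ - 2) := by
  have : (2 : ℝ) ^ (θ - 2) < 1 := Real.rpow_lt_one_of_one_lt_of_neg (by norm_num) (by linarith)
  linarith

lemma AA_pos {θ : ℝ} (h2 : θ < 2) : 1 ≤ AA θ := by
  unfold AA
  have := AA_den h2
  have : 0 ≤ (2 : ℝ) ^ θ / (1 - 2 ^ (θ - 2)) := by positivity
  linarith

lemma geo_theta {θ : ℝ} (h2 : θ < 2) (J : ℕ) :
    ∑ j ∈ Finset.range J, (1 / 4 : ℝ) ^ j * ((2 : ℝ) ^ (j + 1)) ^ θ ≤ 2 ^ θ / (1 - 2 ^ (θ - 2)) := by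
  have hd := AA_den h2
  have e : ∀ j : ℕ, (1 / 4 : ℝ) ^ j * ((2 : ℝ) ^ (j + 1)) ^ θ = 2 ^ θ * ((2 : ℝ) ^ (θ - 2)) ^ j := by
    intro j
    rw [← Real.rpow_natCast ((2 : ℝ) ^ (θ - 2)) j, ← Real.rpow_mul (by norm_num),
      ← Real.rpow_natCast (2 : ℝ) (j + 1), ← Real.rpow_mul (by norm_num),
      ← Real.rpow_natCast (1 / 4 : ℝ) j, show (1 / 4 : ℝ) = 2 ^ (-2 : ℝ) by
        rw [Real.rpow_neg (by norm_num)]; norm_num, ← Real.rpow_mul (by norm_num),
      ← Real.rpow_add (by norm_num), ← Real.rpow_add (by norm_num)]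
    congr 1
    push_cast
    ring
  simp_rw [e]
  rw [← Finset.mul_sum, div_eq_mul_inv]
  apply mul_le_mul_of_nonneg_left _ (by positivity)
  have hr0 : (0 : ℝ) ≤ 2 ^ (θ - 2) := by positivity
  have hr1 : (2 : ℝ) ^ (θ - 2) < 1 := by linarith
  have := Summable.sum_le_tsum (Finset.range J) (fun j _ => pow_nonneg hr0 j)
    (summable_geometric_of_lt_one hr0 hr1)
  rwa [tsum_geometric_of_lt_one hr0 hr1] at this

/-- the sum over the shells from a power bound -/
lemma shell_pow {μ : Measure ℝ} [IsFiniteMeasure μ] {φ : ℝ → ℝ} (hφ : Integrable φ μ)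
    (h0 : ∀ x, 0 ≤ φ x) (h1 : ∀ x, φ x ≤ 1) {L : ℝ} (hL : 0 < L)
    (h2 : ∀ x, φ x * (L * x) ^ 2 ≤ 1) {θ : ℝ} (hθ2 : θ < 2) {c η : ℝ} (hc : 0 ≤ c)
    (hη : 0 ≤ η) (J : ℕ)
    (hm : ∀ j ≤ J, μ.real (PI (2 ^ j / L)) ≤ c * (2 ^ j / L) ^ θ + η) :
    ∫ x in PI (2 ^ J / L), φ x ∂μ ≤ c * AA θ / L ^ θ + 3 * η := by
  refine (shell_sum hφ h0 h1 hL h2 J).trans ?_
  have hLθ : 0 < L ^ θ := Real.rpow_pos_of_pos hL θ
  have g0 := hm 0 (Nat.zero_le _)
  rw [pow_zero, Real.div_rpow zero_le_one hL.le, Real.one_rpow] at g0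
  have g1 : ∑ j ∈ Finset.range J, (1 / 4 : ℝ) ^ j * μ.real (PI (2 ^ (j + 1) / L)) ≤
      ∑ j ∈ Finset.range J, (c / L ^ θ * ((1 / 4 : ℝ) ^ j * ((2 : ℝ) ^ (j + 1)) ^ θ) +
        η * (1 / 4 : ℝ) ^ j) := by
    refine Finset.sum_le_sum fun j hj => ?_
    have h3 := hm (j + 1) (by have := Finset.mem_range.1 hj; omega)
    rw [Real.div_rpow (by positivity) hL.le] at h3
    have h4 := mul_le_mul_of_nonneg_left h3 (show (0 : ℝ) ≤ (1 / 4) ^ j by positivity)
    refine h4.trans (le_of_eq ?_)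
    ring
  have g2 : ∑ j ∈ Finset.range J, (1 / 4 : ℝ) ^ j ≤ 4 / 3 := by
    have := Summable.sum_le_tsum (Finset.range J) (fun j _ => by positivity)
      (summable_geometric_of_lt_one (show (0 : ℝ) ≤ 1 / 4 by norm_num) (by norm_num))
    rw [tsum_geometric_of_lt_one (by norm_num) (by norm_num)] at this
    refine this.trans (by norm_num)
  rw [Finset.sum_add_distrib, ← Finset.mul_sum, ← Finset.mul_sum] at g1
  have g3 := mul_le_mul_of_nonneg_left (geo_theta hθ2 J) (show 0 ≤ c / L ^ θ by positivity)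
  have g4 := mul_le_mul_of_nonneg_left g2 hη
  have e : c * AA θ / L ^ θ = c * (1 / L ^ θ) + c / L ^ θ * (2 ^ θ / (1 - 2 ^ (θ - 2))) := by
    unfold AA
    ring
  rw [e]
  linarith

end Pool.Agent.Zk99.PR
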