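import Mathlib

set_option autoImplicit false

open MeasureTheory Set Filter Topology

namespace Pool.Agent.Zk99.PR

variable {l : Filter ℝ} {G : ℝ → ℝ → ℝ} {H f : ℝ → ℝ} {a b : ℝ}

lemma low_weight (hGc : ∀ T, Continuous (G T)) (hG0 : ∀ᶠ T in l, ∀ α, 0 ≤ G T α)
    (hHc : Continuous H) (hH0 : ∀ α, 0 ≤ H α) (hab : a < b)
    (hlow : ∀ a' b' : ℝ, a ≤ a' → a' < b' → b' ≤ b → ∀ ε : ℝ, 0 < ε → ∀ᶠ T in l,
      (∫ α in a'..b', H α) - ε ≤ ∫ α in a'..b', G T α)
    (hf : Continuous f) (hf0 : ∀ x ∈ Icc a b, 0 ≤ f x) {ε : ℝ} (hε : 0 < ε) :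
    ∀ᶠ T in l, (∫ α in a..b, f α * H α) - ε ≤ ∫ α in a..b, f α * G T α := by
  obtain ⟨J, hJ⟩ : ∃ J : ℝ, J = ∫ α in a..b, H α := ⟨_, rfl⟩
  have hJ0 : 0 ≤ J := by
    rw [hJ]
    exact intervalIntegral.integral_nonneg hab.le fun x _ => hH0 x
  obtain ⟨ω, hω⟩ : ∃ ω : ℝ, ω = ε / (4 * (J + 1)) := ⟨_, rfl⟩
  have hω0 : 0 < ω := by rw [hω]; positivity
  have huc := (isCompact_Icc (a := a) (b := b)).uniformContinuousOn_of_continuous hf.continuousOn
  rw [Metric.uniformContinuousOn_iff] at huc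
  obtain ⟨δ, hδ, hδf⟩ := huc ω hω0
  obtain ⟨M, hM⟩ := (isCompact_Icc (a := a) (b := b)).exists_bound_of_continuousOn hf.continuousOn
  have hM0 : 0 ≤ M := (norm_nonneg _).trans (hM a ⟨le_rfl, hab.le⟩)
  obtain ⟨n, hn⟩ := exists_nat_gt ((b - a) / δ)
  have hn0 : (0 : ℝ) < n := lt_of_le_of_lt (div_nonneg (by linarith) hδ.le) hn
  have hstep : (b - a) / n < δ := by
    rw [div_lt_iff₀ hδ] at hn
    rw [div_lt_iff₀ hn0]
    linarith
  have hs0 : 0 < (b - a) / n := div_pos (by linarith) hn0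
  obtain ⟨x, hx⟩ : ∃ x : ℕ → ℝ, ∀ k, x k = a + k * ((b - a) / n) := ⟨_, fun k => rfl⟩
  have hx0 : x 0 = a := by rw [hx]; simp
  have hxn : x n = b := by rw [hx]; field_simp; ring
  have hxs : ∀ k, x (k + 1) = x k + (b - a) / n := by
    intro k
    rw [hx, hx]
    push_cast; ring
  have hxa : ∀ k, a ≤ x k := by
    intro k
    rw [hx]
    have : (0 : ℝ) ≤ k * ((b - a) / n) := by positivity
    linarith
  have hxb : ∀ k, k ≤ n → x k ≤ b := by
    intro k hk
    rw [← hxn, hx, hx]
    have : (k : ℝ) ≤ n := by exact_mod_cast hk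
    have := mul_le_mul_of_nonneg_right this hs0.le
    linarith
  obtain ⟨e, he⟩ : ∃ e : ℝ, e = ε / (4 * n * (M + ω + 1)) := ⟨_, rfl⟩
  have he0 : 0 < e := by rw [he]; positivity
  have hev : ∀ᶠ T in l, ∀ k ∈ Finset.range n, (∫ α in (x k)..(x (k + 1)), H α) - e ≤
      ∫ α in (x k)..(x (k + 1)), G T α := by
    rw [Filter.eventually_all_finset]
    intro k hk
    rw [Finset.mem_range] at hk
    exact hlow (x k) (x (k + 1)) (hxa k) (by rw [hxs]; linarith) (hxb (k + 1) hk) e he0
  filter_upwards [hev, hG0] with T hT hT0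
  have hci : ∀ {g : ℝ → ℝ}, Continuous g → ∀ p q : ℝ, IntervalIntegrable g volume p q :=
    fun hg p q => hg.intervalIntegrable p q
  have c1 : Continuous fun α => f α * G T α := hf.mul (hGc T)
  have c2 : Continuous fun α => f α * H α := hf.mul hHc
  have c3 : Continuous fun α => 2 * ω * H α := continuous_const.mul hHc
  have c4 : Continuous fun α => f α * H α - 2 * ω * H α := c2.sub c3
  have s1 : ∑ k ∈ Finset.range n, ∫ α in (x k)..(x (k + 1)), f α * G T α =
      ∫ α in a..b, f α * G T α := by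
    rw [intervalIntegral.sum_integral_adjacent_intervals fun k _ => hci c1 _ _, hx0, hxn]
  have s2 : ∑ k ∈ Finset.range n, ∫ α in (x k)..(x (k + 1)), (f α * H α - 2 * ω * H α) =
      ∫ α in a..b, (f α * H α - 2 * ω * H α) := by
    rw [intervalIntegral.sum_integral_adjacent_intervals fun k _ =>
      hci c4 _ _, hx0, hxn]
  have s3 : ∫ α in a..b, (f α * H α - 2 * ω * H α) = (∫ α in a..b, f α * H α) - 2 * ω * J := by
    rw [intervalIntegral.integral_sub (hci c2 _ _) (hci c3 _ _),
      intervalIntegral.integral_const_mul, hJ]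
  have key : ∀ k ∈ Finset.range n,
      (∫ α in (x k)..(x (k + 1)), (f α * H α - 2 * ω * H α)) - (M + ω) * e ≤
      ∫ α in (x k)..(x (k + 1)), f α * G T α := by
    intro k hk
    have hk' := Finset.mem_range.1 hk
    have hle : x k ≤ x (k + 1) := by rw [hxs]; linarith
    have hmem : x k ∈ Icc a b := ⟨hxa k, hxb k hk'.le⟩
    have hfk := hM (x k) hmem
    rw [Real.norm_eq_abs] at hfk
    have hfk1 := (le_abs_self _).trans hfk
    have hdist : ∀ y ∈ Icc (x k) (x (k + 1)), |f y - f (x k)| < ω := by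
      intro y hy
      have hy' : y ∈ Icc a b := ⟨(hxa k).trans hy.1, hy.2.trans (hxb (k + 1) hk')⟩
      have := hδf y hy' (x k) hmem (by
        rw [Real.dist_eq, abs_of_nonneg (by linarith [hy.1])]
        have := hy.2
        rw [hxs] at this
        linarith)
      rwa [Real.dist_eq] at this
    obtain ⟨c, hc⟩ : ∃ c : ℝ, c = max 0 (f (x k) - ω) := ⟨_, rfl⟩
    have hc0 : 0 ≤ c := by rw [hc]; exact le_max_left _ _
    have hcf : f (x k) - ω ≤ c := by rw [hc]; exact le_max_right _ _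
    have hcM : c ≤ M + ω := by
      rw [hc]
      exact max_le (by positivity) (by linarith)
    calc (∫ α in (x k)..(x (k + 1)), (f α * H α - 2 * ω * H α)) - (M + ω) * e ≤
          (∫ α in (x k)..(x (k + 1)), c * H α) - c * e := by
          refine sub_le_sub ?_ (mul_le_mul_of_nonneg_right hcM he0.le)
          refine intervalIntegral.integral_mono_on hle (hci c4 _ _)
            (hci (continuous_const.mul hHc) _ _) fun y hy => ?_
          have h1 := (abs_lt.1 (hdist y hy)).2
          have h2 := hH0 y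
          have h3 : f y - 2 * ω ≤ c := by linarith
          nlinarith
      _ = c * ((∫ α in (x k)..(x (k + 1)), H α) - e) := by
          rw [intervalIntegral.integral_const_mul]
          ring
      _ ≤ c * ∫ α in (x k)..(x (k + 1)), G T α := mul_le_mul_of_nonneg_left (hT k hk) hc0
      _ = ∫ α in (x k)..(x (k + 1)), c * G T α := (intervalIntegral.integral_const_mul _ _).symm
      _ ≤ ∫ α in (x k)..(x (k + 1)), f α * G T α := by
          refine intervalIntegral.integral_mono_on hle (hci (continuous_const.mul (hGc T)) _ _)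
            (hci c1 _ _) fun y hy => ?_
          have h1 := (abs_lt.1 (hdist y hy)).1
          have hy' : y ∈ Icc a b := ⟨(hxa k).trans hy.1, hy.2.trans (hxb (k + 1) hk')⟩
          apply mul_le_mul_of_nonneg_right _ (hT0 y)
          rw [hc]
          exact max_le (hf0 y hy') (by linarith)
  have h1 := Finset.sum_le_sum key
  rw [Finset.sum_sub_distrib, s1, s2, s3, Finset.sum_const, Finset.card_range, nsmul_eq_mul] at h1
  have h2 : (n : ℝ) * ((M + ω) * e) ≤ ε / 4 := by
    rw [he]
    have : (n : ℝ) * ((M + ω) * (ε / (4 * n * (M + ω + 1)))) = (M + ω) / (M + ω + 1) * (ε / 4) := by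
      field_simp
    rw [this]
    have h3 : (M + ω) / (M + ω + 1) ≤ 1 := by
      rw [div_le_one (by positivity)]
      linarith
    calc _ ≤ 1 * (ε / 4) := by gcongr
      _ = _ := one_mul _
  have h3 : 2 * ω * J ≤ ε / 2 := by
    rw [hω]
    have : 2 * (ε / (4 * (J + 1))) * J = J / (J + 1) * (ε / 2) := by
      field_simp
      ring
    rw [this]
    have h3 : J / (J + 1) ≤ 1 := by
      rw [div_le_one (by positivity)]
      linarith
    calc _ ≤ 1 * (ε / 2) := by gcongr
      _ = _ := one_mul _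
  linarith

end Pool.Agent.Zk99.PR
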