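import Pool.Agent.Zk99.PR.A
import Pool.Agent.Y749.AH.Mass2

set_option autoImplicit false

open MeasureTheory Set Filter Topology

namespace Pool.Agent.Zk99.PR

open Pool.Agent.Y749.Rig Pool.Agent.Y749.AH

variable {l : Filter ℝ}

/-- the normalised number of pairs at distance at most `δ` -/
noncomputable def PP (T δ : ℝ) : ℝ := (Mp T).real (Icc (-δ) δ)

lemma Icc_PI {δ : ℝ} (hδ : 0 ≤ δ) : Icc (-δ) δ = {0} ∪ PI δ := by
  ext x
  simp only [PI, mem_Icc, mem_union, mem_singleton_iff, mem_ofPred_eq]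
  rw [← abs_le]
  constructor
  · intro h
    by_cases hx : x = 0
    · exact Or.inl hx
    · exact Or.inr ⟨hx, h⟩
  · rintro (rfl | h)
    · rwa [abs_zero]
    · exact h.2

lemma disj_PI (δ : ℝ) : Disjoint ({0} : Set ℝ) (PI δ) := by
  rw [Set.disjoint_left]
  rintro x hx ⟨h, _⟩
  exact h hx

lemma PP_eq {δ : ℝ} (hδ : 0 ≤ δ) (T : ℝ) : PP T δ = (Mp T).real {0} + (Mp T).real (PI δ) := by
  have hfin := Mp_fin T
  unfold PP
  rw [Icc_PI hδ, measureReal_union (disj_PI δ) (PI_meas δ)]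

lemma zero_le_PP {δ : ℝ} (hδ : 0 ≤ δ) (T : ℝ) : (Mp T).real {0} ≤ PP T δ := by
  rw [PP_eq hδ]
  linarith [measureReal_nonneg (μ := Mp T) (s := PI δ)]

lemma fl_tr_sq {L : ℝ} (hL : 0 < L) (x : ℝ) : fl (tr L) x * (L * x) ^ 2 ≤ 1 := by
  rcases eq_or_ne x 0 with h | h
  · rw [h]; norm_num
  · rw [fl_tr hL h]
    have hpi := Real.pi_gt_three
    have e : (Real.sin (Real.pi * L * x) / (Real.pi * L * x)) ^ 2 * (L * x) ^ 2 =
        Real.sin (Real.pi * L * x) ^ 2 / Real.pi ^ 2 := by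
      field_simp
    rw [e, div_le_one (by positivity)]
    have := Real.sin_sq_le_one (Real.pi * L * x)
    nlinarith

lemma small_pow {θ δ0 c η : ℝ} (hθ : 0 < θ) (hδ : 0 < δ0) (hc : 0 ≤ c) (hη : 0 < η) :
    ∃ δ : ℝ, 0 < δ ∧ δ ≤ δ0 ∧ c * δ ^ θ ≤ η := by
  refine ⟨min δ0 ((η / (c + 1)) ^ (1 / θ)), lt_min hδ (by positivity), min_le_left _ _, ?_⟩
  have h1 : (min δ0 ((η / (c + 1)) ^ (1 / θ))) ^ θ ≤ ((η / (c + 1)) ^ (1 / θ)) ^ θ :=
    Real.rpow_le_rpow (by positivity) (min_le_right _ _) hθ.le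
  have h2 : ((η / (c + 1)) ^ (1 / θ)) ^ θ = η / (c + 1) := by
    rw [← Real.rpow_mul (by positivity), one_div, inv_mul_cancel₀ hθ.ne', Real.rpow_one]
  rw [h2] at h1
  calc c * _ ≤ c * (η / (c + 1)) := mul_le_mul_of_nonneg_left h1 hc
    _ = η * (c / (c + 1)) := by ring
    _ ≤ η * 1 := by
        apply mul_le_mul_of_nonneg_left _ hη.le
        rw [div_le_one (by positivity)]
        linarith
    _ = η := mul_one _

/-- from the close pairs to the Fejer mean -/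
theorem pair_fej : ∃ K : ℝ, 0 ≤ K ∧ ∀ {l : Filter ℝ}, l ≤ atTop → ∀ {θ c δ0 : ℝ}, 0 < θ → θ < 2 →
    0 ≤ c → 0 < δ0 →
    (∀ δ : ℝ, 0 < δ → δ ≤ δ0 → ∀ η : ℝ, 0 < η → ∀ᶠ T in l, PP T δ ≤ 1 + c * δ ^ θ + η) →
    ∀ L : ℝ, 1 / δ0 ≤ L → ∀ η : ℝ, 0 < η → ∀ᶠ T in l,
      ∫ α, tr L α * Fr T α ≤ 1 + c * AA θ / L ^ θ + K * (1 + 4 / δ0 ^ 2) / L ^ 2 + η := by
  obtain ⟨C, hC, hB⟩ := Mp_bdd
  have hC0 : 0 ≤ C := by linarith
  refine ⟨2 * C * DD 0, by have := DD_nonneg 0; positivity, ?_⟩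
  intro l hl θ c δ0 hθ hθ2 hc hδ0 h L hL η hη
  have hL0 : 0 < L := lt_of_lt_of_le (by positivity) hL
  have hx1 : 1 ≤ δ0 * L := by
    rw [div_le_iff₀ hδ0] at hL
    linarith
  obtain ⟨J, hJ1, hJ2⟩ := exists_nat_pow_near hx1 (show (1 : ℝ) < 2 by norm_num)
  obtain ⟨δ1, hδ1⟩ : ∃ δ1 : ℝ, δ1 = 2 ^ J / L := ⟨_, rfl⟩
  have h10 : 0 < δ1 := by rw [hδ1]; positivity
  have h11 : δ1 ≤ δ0 := by
    rw [hδ1, div_le_iff₀ hL0]; exact hJ1
  have h12 : δ0 / 2 < δ1 := by
    rw [hδ1, lt_div_iff₀ hL0]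
    rw [pow_succ] at hJ2
    linarith
  obtain ⟨d, hd0, hdδ, hdη⟩ := small_pow hθ hδ0 hc (show 0 < η / 8 by positivity)
  have hj : ∀ᶠ T in l, ∀ j ∈ Finset.range (J + 1),
      PP T (2 ^ j / L) ≤ 1 + c * (2 ^ j / L) ^ θ + η / 8 := by
    rw [Filter.eventually_all_finset]
    intro j hj
    refine h _ (by positivity) ?_ _ (by positivity)
    refine le_trans ?_ h11
    rw [hδ1]
    apply div_le_div_of_nonneg_right _ hL0.le
    exact pow_le_pow_right₀ (by norm_num) (by have := Finset.mem_range.1 hj; omega)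
  filter_upwards [hj, h d hd0 hdδ (η / 8) (by positivity), hl (Mp_zero (show 0 < η / 8 by positivity)),
    hl hB] with T g1 g2 g3 hBT
  have hfin := Mp_fin T
  have hint : Integrable (fl (tr L)) (Mp T) :=
    Bdd.integrable hC0 hBT (fl_cont (tr_int hL0)) (fl_qd (adm_tr hL0))
  have i2 : Integrable (fun x => fl (tr L) x * ww (2 * Real.pi * x / Real.log T)) (Mp T) := by
    have hwc := ww_cont
    refine hint.mul_bdd (c := 1) (by fun_prop) (ae_of_all _ fun x => ?_)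
    rw [Real.norm_eq_abs, abs_of_pos (ww_pos _)]
    exact ww_le _
  have hφ0 : ∀ x, 0 ≤ fl (tr L) x := fl_tr_nonneg hL0
  have hφ1 : ∀ x, fl (tr L) x ≤ 1 := fl_tr_le hL0
  have hz : (Mp T).real {0} ≤ 1 + 2 * (η / 8) := by
    have := zero_le_PP hd0.le T
    linarith
  have hm : ∀ j ≤ J, (Mp T).real (PI (2 ^ j / L)) ≤ c * (2 ^ j / L) ^ θ + 2 * (η / 8) := by
    intro j hj
    have h3 := g1 j (Finset.mem_range.2 (by omega))
    rw [PP_eq (by positivity)] at h3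
    linarith
  have s1 := shell_pow hint hφ0 hφ1 hL0 (fl_tr_sq hL0) hθ2 hc
    (show 0 ≤ 2 * (η / 8) by positivity) J hm
  rw [← hδ1] at s1
  -- the tail
  have s2 : ∫ x in (Icc (-δ1) δ1)ᶜ, fl (tr L) x ∂(Mp T) ≤
      2 * C * DD 0 * (1 + 4 / δ0 ^ 2) / L ^ 2 := by
    have t1 : ∫ x in (Icc (-δ1) δ1)ᶜ, fl (tr L) x ∂(Mp T) ≤
        ∫ x in (Icc (-δ1) δ1)ᶜ, (1 + 4 / δ0 ^ 2) / L ^ 2 * (1 / (1 + x ^ 2)) ∂(Mp T) := by
      refine setIntegral_mono_on hint.integrableOn ((inv_int hC0 hBT).const_mul _).integrableOn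
        measurableSet_Icc.compl ?_
      intro x hx
      have hx1 : δ1 < |x| := by
        by_contra hcon
        push Not at hcon
        exact hx (abs_le.1 hcon)
      have hx2 : δ0 ^ 2 / 4 ≤ x ^ 2 := by
        rw [← sq_abs x]
        nlinarith
      have hx3 : 0 < x ^ 2 := lt_of_lt_of_le (by positivity) hx2
      have k1 := fl_tr_sq hL0 x
      have k2 : 1 + x ^ 2 ≤ (1 + 4 / δ0 ^ 2) * x ^ 2 := by
        have : 1 ≤ 4 / δ0 ^ 2 * x ^ 2 := by
          rw [div_mul_eq_mul_div, one_le_div (by positivity)]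
          linarith
        linarith
      have k3 : fl (tr L) x * (1 + x ^ 2) ≤ (1 + 4 / δ0 ^ 2) / L ^ 2 := by
        calc fl (tr L) x * (1 + x ^ 2) ≤ fl (tr L) x * ((1 + 4 / δ0 ^ 2) * x ^ 2) :=
              mul_le_mul_of_nonneg_left k2 (hφ0 x)
          _ = (1 + 4 / δ0 ^ 2) / L ^ 2 * (fl (tr L) x * (L * x) ^ 2) := by
              field_simp
          _ ≤ (1 + 4 / δ0 ^ 2) / L ^ 2 * 1 := mul_le_mul_of_nonneg_left k1 (by positivity)
          _ = _ := mul_one _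
      rw [mul_one_div, le_div_iff₀ (by positivity)]
      exact k3
    refine t1.trans ?_
    rw [integral_const_mul]
    have t2 : ∫ x in (Icc (-δ1) δ1)ᶜ, 1 / (1 + x ^ 2) ∂(Mp T) ≤ 2 * C * DD 0 :=
      (setIntegral_le_integral (inv_int hC0 hBT) (ae_of_all _ fun x => by positivity)).trans
        (all_le hC0 hBT)
    calc _ ≤ (1 + 4 / δ0 ^ 2) / L ^ 2 * (2 * C * DD 0) :=
          mul_le_mul_of_nonneg_left t2 (by positivity)
      _ = _ := by ring
  have e1 : ∫ x, fl (tr L) x ∂(Mp T) = (∫ x in Icc (-δ1) δ1, fl (tr L) x ∂(Mp T)) +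
      ∫ x in (Icc (-δ1) δ1)ᶜ, fl (tr L) x ∂(Mp T) :=
    (integral_add_compl measurableSet_Icc hint).symm
  have e2 : ∫ x in Icc (-δ1) δ1, fl (tr L) x ∂(Mp T) =
      (Mp T).real {0} + ∫ x in PI δ1, fl (tr L) x ∂(Mp T) := by
    rw [Icc_PI h10.le, setIntegral_union (disj_PI δ1) (PI_meas δ1) hint.integrableOn
      hint.integrableOn, integral_singleton, fl_tr_zero hL0]
    simp
  rw [Fr_pair (tr_int hL0)]
  have e3 : ∫ x, fl (tr L) x * ww (2 * Real.pi * x / Real.log T) ∂(Mp T) ≤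
      ∫ x, fl (tr L) x ∂(Mp T) := by
    refine integral_mono i2 hint fun x => ?_
    calc fl (tr L) x * ww (2 * Real.pi * x / Real.log T) ≤ fl (tr L) x * 1 :=
          mul_le_mul_of_nonneg_left (ww_le _) (hφ0 x)
      _ = _ := mul_one _
  linarith

/-- from the Fejer mean to the close pairs -/
lemma fej_low {L : ℝ} (hL : 1 ≤ L) : ∀ᶠ T in atTop,
    (Mp T).real {0} + (1 / 5) * (Mp T).real (PI (1 / (2 * L))) ≤ ∫ α, tr L α * Fr T α := by
  obtain ⟨C, hC, hB⟩ := Mp_bdd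
  have hC0 : 0 ≤ C := by linarith
  have hL0 : 0 < L := by linarith
  have hlog : ∀ᶠ T in atTop, (4 : ℝ) ≤ Real.log T := Real.tendsto_log_atTop.eventually_ge_atTop 4
  filter_upwards [hB, hlog] with T hBT hlT
  have hfin := Mp_fin T
  have hpi := Real.pi_pos
  have hpi4 := Real.pi_le_four
  have hφ0 : ∀ x, 0 ≤ fl (tr L) x := fl_tr_nonneg hL0
  have hint : Integrable (fl (tr L)) (Mp T) :=
    Bdd.integrable hC0 hBT (fl_cont (tr_int hL0)) (fl_qd (adm_tr hL0))
  have i2 : Integrable (fun x => fl (tr L) x * ww (2 * Real.pi * x / Real.log T)) (Mp T) := by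
    have hwc := ww_cont
    refine hint.mul_bdd (c := 1) (by fun_prop) (ae_of_all _ fun x => ?_)
    rw [Real.norm_eq_abs, abs_of_pos (ww_pos _)]
    exact ww_le _
  obtain ⟨d, hd⟩ : ∃ d : ℝ, d = 1 / (2 * L) := ⟨_, rfl⟩
  have hd0 : 0 < d := by rw [hd]; positivity
  have hd1 : d ≤ 1 / 2 := by
    rw [hd]
    apply one_div_le_one_div_of_le (by norm_num)
    linarith
  rw [Fr_pair (tr_int hL0), ← hd]
  have e1 : ∫ x in Icc (-d) d, fl (tr L) x * ww (2 * Real.pi * x / Real.log T) ∂(Mp T) ≤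
      ∫ x, fl (tr L) x * ww (2 * Real.pi * x / Real.log T) ∂(Mp T) :=
    setIntegral_le_integral i2 (ae_of_all _ fun x => mul_nonneg (hφ0 x) (ww_pos _).le)
  have e2 : ∫ x in Icc (-d) d, fl (tr L) x * ww (2 * Real.pi * x / Real.log T) ∂(Mp T) =
      (Mp T).real {0} + ∫ x in PI d, fl (tr L) x * ww (2 * Real.pi * x / Real.log T) ∂(Mp T) := by
    rw [Icc_PI hd0.le, setIntegral_union (disj_PI d) (PI_meas d) i2.integrableOn
      i2.integrableOn, integral_singleton, fl_tr_zero hL0, mul_zero, zero_div, ww_zero]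
    simp
  have e3 : (1 / 5) * (Mp T).real (PI d) ≤
      ∫ x in PI d, fl (tr L) x * ww (2 * Real.pi * x / Real.log T) ∂(Mp T) := by
    have e4 : (1 / 5) * (Mp T).real (PI d) = ∫ x in PI d, (1 / 5 : ℝ) ∂(Mp T) := by
      rw [setIntegral_const, smul_eq_mul, mul_comm]
    rw [e4]
    refine setIntegral_mono_on (integrable_const _).integrableOn i2.integrableOn (PI_meas d) ?_
    intro x hx
    have k1 : 2 / 5 ≤ fl (tr L) x := by
      refine sinc_low hL0 (r := d) ?_ hx.2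
      rw [hd]
      apply le_of_eq
      field_simp
    have k2 : 1 / 2 ≤ ww (2 * Real.pi * x / Real.log T) := by
      have k3 := ww_sub (2 * Real.pi * x / Real.log T)
      have k4 : |2 * Real.pi * x / Real.log T| ≤ 1 := by
        rw [abs_div, abs_of_pos (show 0 < Real.log T by linarith), div_le_one (by linarith),
          abs_mul, abs_of_pos (show 0 < 2 * Real.pi by positivity)]
        have := hx.2
        calc 2 * Real.pi * |x| ≤ 2 * Real.pi * (1 / 2) := by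
              gcongr
              exact this.trans hd1
          _ ≤ Real.log T := by linarith
      have k5 : (2 * Real.pi * x / Real.log T) ^ 2 ≤ 1 := by
        rw [← sq_abs]
        exact pow_le_one₀ (abs_nonneg _) k4
      have k6 := (abs_le.1 k3).2
      linarith
    nlinarith
  linarith

lemma trL_eq {L : ℝ} (hL : 0 < L) (T : ℝ) :
    ∫ α, tr L α * Fr T α = (2 / L ^ 2) * ∫ α in (0 : ℝ)..L, (L - α) * Fr T α := by
  have hFc := Fr_cont T
  have htc := tr_cont L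
  have hc : Continuous fun α => tr L α * Fr T α := by fun_prop
  rw [int_supp hL (f := fun α => tr L α * Fr T α) (fun x hx => by
    rw [tr_supp hL x hx, zero_mul])]
  rw [← intervalIntegral.integral_add_adjacent_intervals (b := 0) (hc.intervalIntegrable _ _)
    (hc.intervalIntegrable _ _)]
  have h1 : ∫ α in (-L)..0, tr L α * Fr T α = ∫ α in (0 : ℝ)..L, tr L α * Fr T α := by
    have := intervalIntegral.integral_comp_neg (a := (0 : ℝ)) (b := L)
      fun α : ℝ => tr L α * Fr T α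
    rw [neg_zero] at this
    rw [← this]
    refine intervalIntegral.integral_congr fun α _ => ?_
    show tr L (-α) * Fr T (-α) = _
    rw [tr_even, Fr_even]
  have h2 : ∫ α in (0 : ℝ)..L, tr L α * Fr T α =
      (1 / L ^ 2) * ∫ α in (0 : ℝ)..L, (L - α) * Fr T α := by
    rw [← intervalIntegral.integral_const_mul]
    refine intervalIntegral.integral_congr fun α hα => ?_
    rw [uIcc_of_le hL.le] at hα
    show tr L α * Fr T α = 1 / L ^ 2 * ((L - α) * Fr T α)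
    rw [tr_eq hL hα.1 hα.2]
    field_simp
  rw [h1, h2]
  ring

end Pool.Agent.Zk99.PR
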