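import Pool.Agent.Zk99.PR.B

set_option autoImplicit false

open MeasureTheory Set Filter Topology

namespace Pool.Agent.Zk99.PR

open Pool.Agent.Y749.Rig Pool.Agent.Y749.AH

variable {l : Filter ℝ} {θ : ℝ}

/-- the second integral of the form factor -/
noncomputable def FJ (T L : ℝ) : ℝ := ∫ α in (0 : ℝ)..L, (L - α) * Fr T α

def RepO (l : Filter ℝ) (θ : ℝ) : Prop := ∃ C : ℝ, ∀ δ : ℝ, 0 < δ → δ ≤ 1 → ∀ ε : ℝ, 0 < ε →
  ∀ᶠ T in l, PP T δ ≤ 1 + C * δ ^ θ + ε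

def FejO (l : Filter ℝ) (θ : ℝ) : Prop := ∃ C : ℝ, ∀ L : ℝ, 1 ≤ L → ∀ ε : ℝ, 0 < ε →
  ∀ᶠ T in l, FJ T L ≤ L ^ 2 / 2 + C * L ^ (2 - θ) + ε

def Repo (l : Filter ℝ) (θ : ℝ) : Prop := ∀ η : ℝ, 0 < η → ∃ δ0 : ℝ, 0 < δ0 ∧ ∀ δ : ℝ, 0 < δ →
  δ ≤ δ0 → ∀ᶠ T in l, PP T δ ≤ 1 + η * δ ^ θ

def Fejo (l : Filter ℝ) (θ : ℝ) : Prop := ∀ η : ℝ, 0 < η → ∃ L0 : ℝ, 1 ≤ L0 ∧ ∀ L : ℝ, L0 ≤ L →
  ∀ᶠ T in l, FJ T L ≤ L ^ 2 / 2 + η * L ^ (2 - θ)

lemma FJ_tr {L : ℝ} (hL : 0 < L) (T : ℝ) : FJ T L = L ^ 2 / 2 * ∫ α, tr L α * Fr T α := by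
  rw [trL_eq hL]
  unfold FJ
  field_simp

lemma pow_sub' {L : ℝ} (hL : 0 < L) (θ : ℝ) : L ^ (2 - θ) = L ^ 2 / L ^ θ := by
  rw [Real.rpow_sub hL, Real.rpow_two]

lemma zero_up (hl : l ≤ atTop) (h : ∀ η : ℝ, 0 < η → ∃ L : ℝ, 1 ≤ L ∧ ∀ᶠ T in l,
    ∫ α, tr L α * Fr T α ≤ 1 + η) {η : ℝ} (hη : 0 < η) :
    ∀ᶠ T in l, (Mp T).real {0} ≤ 1 + η := by
  obtain ⟨L, hL, h1⟩ := h η hη
  filter_upwards [h1, hl (fej_low hL)] with T h2 h3
  have := measureReal_nonneg (μ := Mp T) (s := PI (1 / (2 * L)))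
  linarith

lemma conv (hl : l ≤ atTop) {L E : ℝ} (hL : 1 ≤ L)
    (hE : ∀ᶠ T in l, ∫ α, tr L α * Fr T α ≤ 1 + E)
    (h0 : ∀ η : ℝ, 0 < η → ∀ᶠ T in l, (Mp T).real {0} ≤ 1 + η) {η : ℝ} (hη : 0 < η) :
    ∀ᶠ T in l, PP T (1 / (2 * L)) ≤ 1 + 5 * E + η := by
  filter_upwards [hE, h0 (η / 6) (by positivity), hl (Mp_zero (show 0 < η / 6 by positivity)),
    hl (fej_low hL)] with T h1 h2 h3 h4
  rw [PP_eq (by positivity)]
  linarith

lemma PP_mono {T δ δ' : ℝ} (h : δ ≤ δ') : PP T δ ≤ PP T δ' := by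
  have hfin := Mp_fin T
  exact measureReal_mono (Icc_subset_Icc (by linarith) h)

lemma PP_bdd : ∃ C : ℝ, 0 ≤ C ∧ ∀ᶠ T in atTop, PP T 1 ≤ C := by
  obtain ⟨C, hC, hB⟩ := Mp_bdd
  refine ⟨2 * C, by linarith, ?_⟩
  filter_upwards [hB] with T hT
  have hfin := Mp_fin T
  have h1 := hT (-1)
  have h2 := hT 0
  rw [show (-1 : ℝ) + 1 = 0 by norm_num] at h1
  rw [zero_add] at h2
  have h3 : (Mp T).real (Icc (-1) 0) ≤ C := ENNReal.toReal_le_of_le_ofReal (by linarith) h1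
  have h4 : (Mp T).real (Icc 0 1) ≤ C := ENNReal.toReal_le_of_le_ofReal (by linarith) h2
  unfold PP
  have h5 : Icc (-1 : ℝ) 1 ⊆ Icc (-1) 0 ∪ Icc 0 1 := by
    intro x hx
    rcases le_total x 0 with h | h
    · exact Or.inl ⟨hx.1, h⟩
    · exact Or.inr ⟨h, hx.2⟩
  calc (Mp T).real (Icc (-1) 1) ≤ (Mp T).real (Icc (-1) 0 ∪ Icc 0 1) := measureReal_mono h5
    _ ≤ (Mp T).real (Icc (-1) 0) + (Mp T).real (Icc 0 1) := measureReal_union_le _ _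
    _ ≤ 2 * C := by linarith

theorem O_imp (hl : l ≤ atTop) (hθ : 0 < θ) (hθ2 : θ < 2) (h : RepO l θ) : FejO l θ := by
  obtain ⟨K, hK, hP⟩ := pair_fej
  obtain ⟨C, hC⟩ := h
  obtain ⟨c, hc⟩ : ∃ c : ℝ, c = max C 0 := ⟨_, rfl⟩
  have hc0 : 0 ≤ c := by rw [hc]; exact le_max_right _ _
  have hcC : C ≤ c := by rw [hc]; exact le_max_left _ _
  refine ⟨c * AA θ / 2 + 5 * K / 2, fun L hL ε hε => ?_⟩
  have hL0 : 0 < L := by linarith
  have key := hP hl hθ hθ2 hc0 (δ0 := 1) one_pos (fun δ h1 h2 η hη => by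
    filter_upwards [hC δ h1 h2 η hη] with T hT
    have : C * δ ^ θ ≤ c * δ ^ θ := mul_le_mul_of_nonneg_right hcC (by positivity)
    linarith) L (by linarith) (2 * ε / L ^ 2) (by positivity)
  filter_upwards [key] with T hT
  rw [FJ_tr hL0]
  have h1 := mul_le_mul_of_nonneg_left hT (show 0 ≤ L ^ 2 / 2 by positivity)
  refine h1.trans ?_
  have hLθ : 0 < L ^ θ := Real.rpow_pos_of_pos hL0 θ
  have e : L ^ 2 / 2 * (1 + c * AA θ / L ^ θ + K * (1 + 4 / 1 ^ 2) / L ^ 2 + 2 * ε / L ^ 2) =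
      L ^ 2 / 2 + c * AA θ / 2 * L ^ (2 - θ) + 5 * K / 2 + ε := by
    rw [pow_sub' hL0]
    field_simp
    ring
  rw [e]
  have h2 : 1 ≤ L ^ (2 - θ) := Real.one_le_rpow hL (by linarith)
  have h3 : 5 * K / 2 * 1 ≤ 5 * K / 2 * L ^ (2 - θ) := mul_le_mul_of_nonneg_left h2 (by positivity)
  linarith

lemma tr_of_FJ {L T C : ℝ} (hL : 0 < L) {θ ε : ℝ}
    (h : FJ T L ≤ L ^ 2 / 2 + C * L ^ (2 - θ) + ε) :
    ∫ α, tr L α * Fr T α ≤ 1 + (2 * C / L ^ θ + 2 * ε / L ^ 2) := by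
  rw [FJ_tr hL, pow_sub' hL] at h
  have hLθ : 0 < L ^ θ := Real.rpow_pos_of_pos hL θ
  have e : L ^ 2 / 2 + C * (L ^ 2 / L ^ θ) + ε =
      L ^ 2 / 2 * (1 + (2 * C / L ^ θ + 2 * ε / L ^ 2)) := by
    field_simp
    ring
  rw [e] at h
  exact le_of_mul_le_mul_left h (by positivity)

lemma inv_theta {δ : ℝ} (hδ : 0 < δ) (θ : ℝ) : 1 / (1 / (2 * δ)) ^ θ = 2 ^ θ * δ ^ θ := by
  rw [Real.div_rpow zero_le_one (by positivity), Real.one_rpow, one_div_one_div,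
    Real.mul_rpow (by norm_num) hδ.le]

theorem O_conv (hl : l ≤ atTop) (hθ : 0 < θ) (h : FejO l θ) : RepO l θ := by
  obtain ⟨C, hC⟩ := h
  obtain ⟨B, hB0, hB⟩ := PP_bdd
  obtain ⟨c, hc⟩ : ∃ c : ℝ, c = max C 0 := ⟨_, rfl⟩
  have hc0 : 0 ≤ c := by rw [hc]; exact le_max_right _ _
  have hcC : C ≤ c := by rw [hc]; exact le_max_left _ _
  have hC' : ∀ L : ℝ, 1 ≤ L → ∀ ε : ℝ, 0 < ε → ∀ᶠ T in l,
      ∫ α, tr L α * Fr T α ≤ 1 + (2 * c / L ^ θ + ε) := by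
    intro L hL ε hε
    have hL0 : 0 < L := by linarith
    filter_upwards [hC L hL (ε * L ^ 2 / 2) (by positivity)] with T hT
    have h1 := tr_of_FJ hL0 hT
    have hLθ : 0 < L ^ θ := Real.rpow_pos_of_pos hL0 θ
    have h2 : 2 * C / L ^ θ ≤ 2 * c / L ^ θ := by gcongr
    have h3 : 2 * (ε * L ^ 2 / 2) / L ^ 2 = ε := by field_simp
    rw [h3] at h1
    linarith
  have hz : ∀ η : ℝ, 0 < η → ∀ᶠ T in l, (Mp T).real {0} ≤ 1 + η := by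
    intro η hη
    refine zero_up hl (fun η hη => ?_) hη
    obtain ⟨L, hL⟩ : ∃ L : ℝ, L = max 1 ((4 * c / η) ^ (1 / θ)) := ⟨_, rfl⟩
    have hL1 : 1 ≤ L := by rw [hL]; exact le_max_left _ _
    have hL0 : 0 < L := by linarith
    refine ⟨L, hL1, ?_⟩
    filter_upwards [hC' L hL1 (η / 2) (by positivity)] with T hT
    have hLθ : 0 < L ^ θ := Real.rpow_pos_of_pos hL0 θ
    have h1 : 4 * c / η ≤ L ^ θ := by
      have h2 : (4 * c / η) ^ (1 / θ) ≤ L := by rw [hL]; exact le_max_right _ _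
      have h3 := Real.rpow_le_rpow (by positivity) h2 hθ.le
      rwa [← Real.rpow_mul (by positivity), one_div, inv_mul_cancel₀ hθ.ne', Real.rpow_one] at h3
    have h4 : 2 * c / L ^ θ ≤ η / 2 := by
      rw [div_le_iff₀ hη] at h1
      rw [div_le_iff₀ hLθ]
      linarith
    linarith
  refine ⟨(10 * c + B) * 2 ^ θ, fun δ hδ hδ1 ε hε => ?_⟩
  rcases le_or_gt δ (1 / 2) with h2 | h2
  · obtain ⟨L, hL⟩ : ∃ L : ℝ, L = 1 / (2 * δ) := ⟨_, rfl⟩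
    have hL1 : 1 ≤ L := by
      rw [hL, one_le_div (by positivity)]
      linarith
    have hδL : δ = 1 / (2 * L) := by rw [hL]; field_simp
    have h3 := conv hl hL1 (hC' L hL1 (ε / 10) (by positivity)) hz (show 0 < ε / 2 by positivity)
    rw [← hδL] at h3
    filter_upwards [h3] with T hT
    have e1 : 2 * c / L ^ θ = 2 * c * (2 ^ θ * δ ^ θ) := by
      rw [← inv_theta hδ, ← hL]
      ring
    rw [e1] at hT
    have h4 : 0 ≤ B * 2 ^ θ * δ ^ θ := by positivity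
    linarith
  · filter_upwards [hl hB] with T hT
    have h3 := (PP_mono hδ1).trans hT
    have h4 : 1 ≤ 2 ^ θ * δ ^ θ := by
      rw [← Real.mul_rpow (by norm_num) hδ.le]
      exact Real.one_le_rpow (by linarith) hθ.le
    have h5 : B * 1 ≤ B * (2 ^ θ * δ ^ θ) := mul_le_mul_of_nonneg_left h4 hB0
    have h6 : 0 ≤ 10 * c * 2 ^ θ * δ ^ θ := by positivity
    linarith

theorem O_iff (hl : l ≤ atTop) (hθ : 0 < θ) (hθ2 : θ < 2) : RepO l θ ↔ FejO l θ :=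
  ⟨O_imp hl hθ hθ2, O_conv hl hθ⟩

theorem o_imp (hl : l ≤ atTop) (hθ : 0 < θ) (hθ2 : θ < 2) (h : Repo l θ) : Fejo l θ := by
  obtain ⟨K, hK, hP⟩ := pair_fej
  intro η hη
  have hA := AA_pos hθ2
  have hA0 : 0 < AA θ := by linarith
  obtain ⟨c, hc⟩ : ∃ c : ℝ, c = η / AA θ := ⟨_, rfl⟩
  have hc0 : 0 < c := by rw [hc]; positivity
  have hcA : c * AA θ = η := by rw [hc]; field_simp
  obtain ⟨δ0, hδ0, hR⟩ := h c hc0
  obtain ⟨Q, hQ⟩ : ∃ Q : ℝ, Q = K * (1 + 4 / δ0 ^ 2) := ⟨_, rfl⟩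
  have hQ0 : 0 ≤ Q := by rw [hQ]; positivity
  have h2θ : 0 < 2 - θ := by linarith
  refine ⟨max (max 1 (1 / δ0)) ((2 * Q / η) ^ (1 / (2 - θ))), (le_max_left _ _).trans
    (le_max_left _ _), fun L hL => ?_⟩
  have hL1 : 1 ≤ L := ((le_max_left _ _).trans (le_max_left _ _)).trans hL
  have hLδ : 1 / δ0 ≤ L := ((le_max_right _ _).trans (le_max_left _ _)).trans hL
  have hLQ : (2 * Q / η) ^ (1 / (2 - θ)) ≤ L := (le_max_right _ _).trans hL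
  have hL0 : 0 < L := by linarith
  have hLθ : 0 < L ^ θ := Real.rpow_pos_of_pos hL0 θ
  have h3 : 2 * Q / η ≤ L ^ (2 - θ) := by
    have h4 := Real.rpow_le_rpow (by positivity) hLQ h2θ.le
    rwa [← Real.rpow_mul (by positivity), one_div, inv_mul_cancel₀ h2θ.ne', Real.rpow_one] at h4
  have key := hP hl hθ hθ2 hc0.le hδ0 (fun δ h1 h2 η' hη' => by
    filter_upwards [hR δ h1 h2] with T hT
    linarith) L hLδ (η / (2 * L ^ θ)) (by positivity)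
  filter_upwards [key] with T hT
  rw [FJ_tr hL0]
  have h1 := mul_le_mul_of_nonneg_left hT (show 0 ≤ L ^ 2 / 2 by positivity)
  refine h1.trans ?_
  rw [hcA, ← hQ]
  have e : L ^ 2 / 2 * (1 + η / L ^ θ + Q / L ^ 2 + η / (2 * L ^ θ)) =
      L ^ 2 / 2 + 3 / 4 * η * L ^ (2 - θ) + Q / 2 := by
    rw [pow_sub' hL0]
    field_simp
    ring
  rw [e]
  rw [div_le_iff₀ hη] at h3
  linarith

theorem o_conv (hl : l ≤ atTop) (hθ : 0 < θ) (h : Fejo l θ) : Repo l θ := by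
  have hz : ∀ η : ℝ, 0 < η → ∀ᶠ T in l, (Mp T).real {0} ≤ 1 + η := by
    intro η hη
    refine zero_up hl (fun η hη => ?_) hη
    obtain ⟨L0, hL0, hF⟩ := h 1 one_pos
    obtain ⟨L, hL⟩ : ∃ L : ℝ, L = max L0 ((2 / η) ^ (1 / θ)) := ⟨_, rfl⟩
    have hLL : L0 ≤ L := by rw [hL]; exact le_max_left _ _
    have hL1 : 1 ≤ L := hL0.trans hLL
    have hLp : 0 < L := by linarith
    refine ⟨L, hL1, ?_⟩
    filter_upwards [hF L hLL] with T hT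
    have h1 := tr_of_FJ (T := T) hLp (C := 1) (θ := θ) (ε := 0) (by linarith)
    have hLθ : 0 < L ^ θ := Real.rpow_pos_of_pos hLp θ
    have h2 : 2 / η ≤ L ^ θ := by
      have h2 : (2 / η) ^ (1 / θ) ≤ L := by rw [hL]; exact le_max_right _ _
      have h3 := Real.rpow_le_rpow (by positivity) h2 hθ.le
      rwa [← Real.rpow_mul (by positivity), one_div, inv_mul_cancel₀ hθ.ne', Real.rpow_one] at h3
    have h4 : 2 * 1 / L ^ θ ≤ η := by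
      rw [div_le_iff₀ hη] at h2
      rw [div_le_iff₀ hLθ]
      linarith
    rw [mul_zero, zero_div, add_zero] at h1
    linarith
  intro η hη
  obtain ⟨L0, hL0, hF⟩ := h (η / (20 * 2 ^ θ)) (by positivity)
  refine ⟨1 / (2 * L0), by positivity, fun δ hδ hδ0 => ?_⟩
  obtain ⟨L, hL⟩ : ∃ L : ℝ, L = 1 / (2 * δ) := ⟨_, rfl⟩
  have hLL : L0 ≤ L := by
    rw [le_div_iff₀ (by positivity)] at hδ0
    rw [hL, le_div_iff₀ (by positivity)]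
    linarith
  have hL1 : 1 ≤ L := hL0.trans hLL
  have hLp : 0 < L := by linarith
  have hδL : δ = 1 / (2 * L) := by rw [hL]; field_simp
  have hδθ : 0 < δ ^ θ := Real.rpow_pos_of_pos hδ θ
  have hE : ∀ᶠ T in l, ∫ α, tr L α * Fr T α ≤ 1 + η / 10 * δ ^ θ := by
    filter_upwards [hF L hLL] with T hT
    have h1 := tr_of_FJ (T := T) hLp (C := η / (20 * 2 ^ θ)) (θ := θ) (ε := 0) (by linarith)
    have e1 : 2 * (η / (20 * 2 ^ θ)) / L ^ θ = η / 10 * δ ^ θ := by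
      have : 2 * (η / (20 * 2 ^ θ)) / L ^ θ = 2 * (η / (20 * 2 ^ θ)) * (1 / L ^ θ) := by ring
      rw [this, hL, inv_theta hδ]
      have h2 : (2 : ℝ) ^ θ ≠ 0 := by positivity
      field_simp
      ring
    rw [e1, mul_zero, zero_div, add_zero] at h1
    exact h1
  have h3 := conv hl hL1 hE hz (show 0 < η / 2 * δ ^ θ by positivity)
  rw [← hδL] at h3
  filter_upwards [h3] with T hT
  linarith

theorem o_iff (hl : l ≤ atTop) (hθ : 0 < θ) (hθ2 : θ < 2) : Repo l θ ↔ Fejo l θ :=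
  ⟨o_imp hl hθ hθ2, o_conv hl hθ⟩

end Pool.Agent.Zk99.PR
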