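import Pool.Agent.Zk99.PR.A2
import Pool.Agent.Zk99.PR.C

set_option autoImplicit false

open MeasureTheory Set Filter Topology

namespace Pool.Agent.Zk99.PR

open Pool.Agent.Y749.Rig Pool.Agent.Y749.AH

variable {l : Filter ℝ} {θ : ℝ}

/-- the tents in the known range -/
lemma tent_lim (RH : RiemannHypothesis) {h c : ℝ} (hh : 0 < h) (hc : h ≤ |c|)
    (hc1 : |c| + h < 1) : Tendsto (fun T => ∫ α, tr h (α - c) * Fr T α) atTop (𝓝 |c|) := by
  have hadm := adm_modu (adm_tr hh) c
  have h0 : 0 < h + |c| := by positivity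
  have t1 := Fr_lim hadm.int (fl_qd hadm) le_rfl (test_limRH RH hadm h0 (by linarith))
  have e1 : (fun T => ∫ α, modu c (tr h) α * Fr T α) =
      fun T => ∫ α, tr h (α - c) * Fr T α := funext fun T => modu_pair (adm_tr hh) T
  rw [e1] at t1
  have e2 : cc (modu c (tr h)) = |c| := by
    unfold cc
    have z1 : modu c (tr h) 0 = 0 := by
      unfold modu
      rw [zero_sub, zero_add, tr_supp hh _ (by rw [abs_neg]; exact hc), tr_supp hh _ hc]
      norm_num
    rw [z1, zero_add]
    have htc := tr_cont h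
    have i1 : ∀ b : ℝ, Integrable fun α => |α| * tr h (α - b) := by
      intro b
      refine Continuous.integrable_of_hasCompactSupport (by fun_prop) ?_
      have : HasCompactSupport fun α => tr h (α - b) :=
        (adm_tr hh).hcs.comp_homeomorph (Homeomorph.subRight b)
      exact this.mul_left
    have i2 : ∀ b : ℝ, ∫ α, |α| * tr h (α - b) = ∫ α, |α + b| * tr h α := by
      intro b
      rw [← integral_sub_right_eq_self (fun α => |α + b| * tr h α) b]
      refine integral_congr_ae (ae_of_all _ fun α => ?_)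
      show |α| * tr h (α - b) = |α - b + b| * tr h (α - b)
      rw [sub_add_cancel]
    have i3 : ∀ b : ℝ, Integrable fun α => |α + b| * tr h α := by
      intro b
      refine Continuous.integrable_of_hasCompactSupport (by fun_prop) ?_
      exact (adm_tr hh).hcs.mul_left
    have e3 : ∀ α, |α| * modu c (tr h) α = (1 / 2) * (|α| * tr h (α - c)) +
        (1 / 2) * (|α| * tr h (α - -c)) := by
      intro α
      unfold modu
      rw [sub_neg_eq_add]
      ring
    simp_rw [e3]
    rw [integral_add ((i1 c).const_mul _) ((i1 (-c)).const_mul _), integral_const_mul,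
      integral_const_mul, i2, i2, ← integral_const_mul, ← integral_const_mul,
      ← integral_add ((i3 c).const_mul _) ((i3 (-c)).const_mul _)]
    have e4 : ∀ α, 1 / 2 * (|α + c| * tr h α) + 1 / 2 * (|α + -c| * tr h α) = |c| * tr h α := by
      intro α
      rcases le_or_gt h |α| with g | g
      · rw [tr_supp hh _ g]
        ring
      · have g1 : |α| < |c| := g.trans_le hc
        have g2 : |α + c| + |α + -c| = 2 * |c| := by
          rw [abs_lt] at g1
          rcases abs_cases c with ⟨k1, k2⟩ | ⟨k1, k2⟩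
          · rw [k1] at g1 ⊢
            rw [abs_of_pos (by linarith [g1.1]), abs_of_neg (by linarith [g1.2])]
            ring
          · rw [k1] at g1 ⊢
            rw [abs_of_neg (by linarith [g1.2]), abs_of_pos (by linarith [g1.1])]
            ring
        calc 1 / 2 * (|α + c| * tr h α) + 1 / 2 * (|α + -c| * tr h α) =
            1 / 2 * (|α + c| + |α + -c|) * tr h α := by ring
          _ = _ := by rw [g2]; ring
    simp_rw [e4]
    rw [integral_const_mul, int_tr hh, mul_one]
  rwa [e2] at t1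

lemma tent_eq' {h : ℝ} (hh : 0 < h) (α : ℝ) : h ^ 2 * tr h α = max 0 (h - |α|) := by
  unfold tr
  rw [mul_div_assoc', pow_two, mul_assoc, mul_div_assoc, mul_div_cancel_left₀ _ hh.ne',
    mul_max_of_nonneg _ _ hh.le, mul_zero, mul_sub, mul_one, mul_div_cancel₀ _ hh.ne']

lemma trF_int {h : ℝ} (hh : 0 < h) (c T : ℝ) : Integrable fun α => tr h (α - c) * Fr T α := by
  have hFc := Fr_cont T
  have htc := tr_cont h
  refine Continuous.integrable_of_hasCompactSupport (by fun_prop) ?_
  have : HasCompactSupport fun α => tr h (α - c) :=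
    (adm_tr hh).hcs.comp_homeomorph (Homeomorph.subRight c)
  exact this.mul_right

/-- the lower bound in the known range -/
lemma low01 (RH : RiemannHypothesis) {a b : ℝ} (ha : 0 < a) (hab : a < b) (hb : b ≤ 1) {ε : ℝ}
    (hε : 0 < ε) : ∀ᶠ T in atTop, (b ^ 2 - a ^ 2) / 2 - ε ≤ ∫ α in a..b, Fr T α := by
  obtain ⟨s, hs⟩ : ∃ s : ℝ, s = min (ε / 4) ((b - a) / 2) := ⟨_, rfl⟩
  have hs0 : 0 < s := by rw [hs]; exact lt_min (by positivity) (by linarith)
  have hs1 : s ≤ ε / 4 := by rw [hs]; exact min_le_left _ _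
  have hs2 : s ≤ (b - a) / 2 := by rw [hs]; exact min_le_right _ _
  obtain ⟨b', hb'⟩ : ∃ b' : ℝ, b' = b - s := ⟨_, rfl⟩
  obtain ⟨c, hc⟩ : ∃ c : ℝ, c = (a + b') / 2 := ⟨_, rfl⟩
  obtain ⟨r, hr⟩ : ∃ r : ℝ, r = (b' - a) / 2 := ⟨_, rfl⟩
  have hab' : a < b' := by rw [hb']; linarith
  have hr0 : 0 < r := by rw [hr]; linarith
  have hc0 : 0 < c := by rw [hc]; linarith
  have hc1 : c ≤ 1 := by rw [hc, hb']; linarith
  obtain ⟨h, hh⟩ : ∃ h : ℝ, h = min (ε / 4) (r / 2) := ⟨_, rfl⟩
  have hh0 : 0 < h := by rw [hh]; exact lt_min (by positivity) (by linarith)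
  have hh1 : h ≤ ε / 4 := by rw [hh]; exact min_le_left _ _
  have hh2 : h ≤ r / 2 := by rw [hh]; exact min_le_right _ _
  have hrh : 0 < r - h := by linarith
  have hcr : c - r = a := by rw [hc, hr]; ring
  have hcr2 : c + r = b' := by rw [hc, hr]; ring
  have hb'1 : b' < 1 := by rw [hb']; linarith
  have l1 := tent_lim RH (h := r) (c := c) hr0 (by rw [abs_of_pos hc0]; linarith)
    (by rw [abs_of_pos hc0]; linarith)
  have l2 := tent_lim RH (h := r - h) (c := c) hrh (by rw [abs_of_pos hc0]; linarith)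
    (by rw [abs_of_pos hc0]; linarith)
  rw [abs_of_pos hc0] at l1 l2
  have l3 : Tendsto (fun T => 1 / h * (r ^ 2 * ∫ α, tr r (α - c) * Fr T α) -
      1 / h * ((r - h) ^ 2 * ∫ α, tr (r - h) (α - c) * Fr T α)) atTop
      (𝓝 (1 / h * (r ^ 2 * c) - 1 / h * ((r - h) ^ 2 * c))) :=
    ((l1.const_mul _).const_mul _).sub ((l2.const_mul _).const_mul _)
  have e1 : 1 / h * (r ^ 2 * c) - 1 / h * ((r - h) ^ 2 * c) = c * (2 * r - h) := by
    field_simp
    ring
  rw [e1] at l3
  have hlow : (b ^ 2 - a ^ 2) / 2 - ε < c * (2 * r - h) := by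
    have k1 : c * (2 * r) = (b' ^ 2 - a ^ 2) / 2 := by rw [hc, hr]; ring
    have k2 : c * h ≤ ε / 4 := by nlinarith
    have k3 : (b ^ 2 - b' ^ 2) / 2 ≤ s := by
      rw [hb']
      nlinarith
    nlinarith
  filter_upwards [l3.eventually (le_mem_nhds hlow), eventually_ge_atTop 10] with T h1 hT
  refine h1.trans ?_
  have hF0 := Fr_nonneg hT
  have hFc := Fr_cont T
  have i1 := trF_int hr0 c T
  have i2 := trF_int hrh c T
  have i3 : Integrable fun α => 1 / h * (max 0 (r - |α - c|) - max 0 (r - h - |α - c|)) * Fr T α := by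
    have : (fun α => 1 / h * (max 0 (r - |α - c|) - max 0 (r - h - |α - c|)) * Fr T α) =
        fun α => 1 / h * (r ^ 2 * (tr r (α - c) * Fr T α)) -
          1 / h * ((r - h) ^ 2 * (tr (r - h) (α - c) * Fr T α)) := by
      funext α
      rw [← tent_eq' hr0, ← tent_eq' hrh]
      ring
    rw [this]
    exact ((i1.const_mul _).const_mul _).sub ((i2.const_mul _).const_mul _)
  have e2 : 1 / h * (r ^ 2 * ∫ α, tr r (α - c) * Fr T α) -
      1 / h * ((r - h) ^ 2 * ∫ α, tr (r - h) (α - c) * Fr T α) =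
      ∫ α, 1 / h * (max 0 (r - |α - c|) - max 0 (r - h - |α - c|)) * Fr T α := by
    rw [← integral_const_mul, ← integral_const_mul, ← integral_const_mul, ← integral_const_mul,
      ← integral_sub ((i1.const_mul _).const_mul _) ((i2.const_mul _).const_mul _)]
    refine integral_congr_ae (ae_of_all _ fun α => ?_)
    simp only
    rw [← tent_eq' hr0, ← tent_eq' hrh]
    ring
  rw [e2, intervalIntegral.integral_of_le hab.le, ← integral_indicator measurableSet_Ioc]
  refine integral_mono i3 ?_ fun α => ?_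
  · rw [integrable_indicator_iff measurableSet_Ioc]
    exact hFc.continuousOn.integrableOn_Icc.mono_set Ioc_subset_Icc_self
  · show 1 / h * (max 0 (r - |α - c|) - max 0 (r - h - |α - c|)) * Fr T α ≤
      (Ioc a b).indicator (Fr T) α
    by_cases hα : α ∈ Ioc a b
    · rw [indicator_of_mem hα]
      have k1 : 1 / h * (max 0 (r - |α - c|) - max 0 (r - h - |α - c|)) ≤ 1 := by
        rw [one_div, inv_mul_le_iff₀ hh0, mul_one]
        rcases le_total (r - |α - c|) 0 with g | g
        · rw [max_eq_left g]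
          have := le_max_left 0 (r - h - |α - c|)
          linarith
        · rw [max_eq_right g]
          have := le_max_right 0 (r - h - |α - c|)
          linarith
      calc _ ≤ 1 * Fr T α := mul_le_mul_of_nonneg_right k1 (hF0 α)
        _ = _ := one_mul _
    · rw [indicator_of_notMem hα]
      have k1 : r ≤ |α - c| := by
        by_contra hcon
        push Not at hcon
        rw [abs_lt] at hcon
        apply hα
        have := hs0
        constructor <;> linarith [hcon.1, hcon.2]
      rw [max_eq_left (by linarith), max_eq_left (by linarith)]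
      simp

lemma near0_low (RH : RiemannHypothesis) {δ : ℝ} (hδ : 0 < δ) (hδ1 : δ < 1) {η : ℝ} (hη : 0 < η) :
    ∀ᶠ T in atTop, 1 - η ≤ ∫ α in (-δ)..δ, Fr T α := by
  have hlim := Fr_lim (tr_int hδ) (fl_qd (adm_tr hδ)) le_rfl
    (test_limRH RH (adm_tr hδ) hδ hδ1)
  have hcc := (cc_tr_le hδ).2
  have hlt : cc (tr δ) - η < cc (tr δ) := by linarith
  filter_upwards [hlim.eventually (le_mem_nhds hlt), eventually_ge_atTop 10] with T h1 hT
  have h2 := tent_up (θ := 0) hδ hT
  simp only [sub_zero, zero_sub, zero_add] at h2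
  have h3 : δ * (1 / δ - η) ≤ δ * ∫ α, tr δ α * Fr T α :=
    mul_le_mul_of_nonneg_left (by linarith) hδ.le
  have h4 : δ * (1 / δ - η) = 1 - δ * η := by field_simp
  have h5 : δ * η ≤ 1 * η := mul_le_mul_of_nonneg_right hδ1.le hη.le
  linarith

/-- lower bounds for the means -/
def MeanLo (l : Filter ℝ) : Prop := ∀ a b : ℝ, 0 < a → a < b → ∀ ε : ℝ, 0 < ε →
  ∀ᶠ T in l, (∫ α in a..b, mn α) - ε ≤ ∫ α in a..b, Fr T α

lemma mn_low {a b : ℝ} (ha : 0 ≤ a) (hab : a ≤ b) (hb : b ≤ 1) :
    ∫ α in a..b, mn α = (b ^ 2 - a ^ 2) / 2 := by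
  have : ∫ α in a..b, mn α = ∫ α in a..b, α := by
    refine intervalIntegral.integral_congr fun α hα => ?_
    rw [uIcc_of_le hab] at hα
    unfold mn
    rw [abs_of_nonneg (ha.trans hα.1), min_eq_left (hα.2.trans hb)]
  rw [this, integral_id]

lemma mn_high {a b : ℝ} (ha : 1 ≤ a) (hab : a ≤ b) : ∫ α in a..b, mn α = b - a := by
  have : ∫ α in a..b, mn α = ∫ _ in a..b, (1 : ℝ) := by
    refine intervalIntegral.integral_congr fun α hα => ?_
    rw [uIcc_of_le hab] at hα
    unfold mn
    rw [abs_of_nonneg (by linarith [hα.1]), min_eq_right (ha.trans hα.1)]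
  rw [this, intervalIntegral.integral_const, smul_eq_mul, mul_one]

/-- lower bounds beyond one are enough -/
lemma meanLo_of (RH : RiemannHypothesis) (hl : l ≤ atTop)
    (h : ∀ a b : ℝ, 1 ≤ a → a < b → ∀ ε : ℝ, 0 < ε → ∀ᶠ T in l,
      b - a - ε ≤ ∫ α in a..b, Fr T α) : MeanLo l := by
  have hmi : ∀ p q : ℝ, IntervalIntegrable mn volume p q :=
    fun p q => mn_cont.intervalIntegrable p q
  intro a b ha hab ε hε
  rcases le_or_gt b 1 with hb | hb
  · rw [mn_low ha.le hab.le hb]
    exact hl (low01 RH ha hab hb hε)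
  · rcases le_or_gt 1 a with h1 | h1
    · rw [mn_high h1 hab.le]
      exact h a b h1 hab ε hε
    · filter_upwards [hl (low01 RH ha h1 le_rfl (show 0 < ε / 2 by positivity)),
        h 1 b le_rfl hb (ε / 2) (by positivity)] with T g1 g2
      have hFc := Fr_cont T
      rw [← intervalIntegral.integral_add_adjacent_intervals (b := 1) (hmi _ _) (hmi _ _),
        mn_low ha.le h1.le le_rfl, mn_high le_rfl hb.le,
        ← intervalIntegral.integral_add_adjacent_intervals (b := 1)
          (hFc.intervalIntegrable _ _) (hFc.intervalIntegrable _ _)]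
      linarith

/-- **lower bounds and the Fejer mean give upper bounds** -/
theorem up_quant (RH : RiemannHypothesis) (hl : l ≤ atTop) (hlo : MeanLo l) {L E : ℝ} (hL : 1 ≤ L)
    (hE : ∀ᶠ T in l, ∫ α, tr L α * Fr T α ≤ 1 + E) {a b : ℝ} (ha : 0 < a) (hab : a < b)
    (hbL : b < L) {ε : ℝ} (hε : 0 < ε) :
    ∀ᶠ T in l, ∫ α in a..b, Fr T α ≤ (∫ α in a..b, mn α) + E * L ^ 2 / (2 * (L - b)) + ε := by
  have hL0 : 0 < L := by linarith
  have hG0 : ∀ᶠ T in l, ∀ α, 0 ≤ Fr T α :=
    hl ((eventually_ge_atTop 10).mono fun T hT α => Fr_nonneg hT α)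
  obtain ⟨w0, hw0⟩ : ∃ w0 : ℝ, w0 = tr L b := ⟨_, rfl⟩
  have hw0' : w0 = (L - b) / L ^ 2 := by
    rw [hw0, tr_eq hL0 (by linarith) hbL.le]
    field_simp
  have hw1 : 0 < w0 := by
    rw [hw0']
    have : 0 < L - b := by linarith
    positivity
  obtain ⟨e, he⟩ : ∃ e : ℝ, e = ε * w0 / 8 := ⟨_, rfl⟩
  have he0 : 0 < e := by rw [he]; positivity
  obtain ⟨δ, hδ⟩ : ∃ δ : ℝ, δ = min (min (1 / 2) (a / 2)) e := ⟨_, rfl⟩
  have hδ1 : 0 < δ := by
    rw [hδ]
    exact lt_min (lt_min (by norm_num) (by positivity)) he0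
  have hδ2 : δ ≤ 1 / 2 := by rw [hδ]; exact (min_le_left _ _).trans (min_le_left _ _)
  have hδ3 : δ < a := by
    have : δ ≤ a / 2 := by rw [hδ]; exact (min_le_left _ _).trans (min_le_right _ _)
    linarith
  have hδe : δ ≤ e := by rw [hδ]; exact min_le_right _ _
  have htc := tr_cont L
  have htn : ∀ x, 0 ≤ tr L x := fun x => tr_nonneg hL0 x
  have mk : ∀ a' b' : ℝ, 0 < a' → a' < b' → ∀ {f : ℝ → ℝ}, Continuous f →
      (∀ x ∈ Icc a' b', 0 ≤ f x) → ∀ᶠ T in l,
      (∫ α in a'..b', f α * mn α) - e ≤ ∫ α in a'..b', f α * Fr T α := by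
    intro a' b' h1 h2 f hf hf0
    exact low_weight (fun T => Fr_cont T) hG0 mn_cont mn_nonneg h2
      (fun a'' b'' g1 g2 g3 => hlo a'' b'' (h1.trans_le g1) g2) hf hf0 he0
  have m1 := mk δ a hδ1 hδ3 htc fun x _ => htn x
  have m2 := mk b L (by linarith) hbL htc fun x _ => htn x
  have m3 := mk a b ha hab (f := fun x => tr L x - w0) (htc.sub continuous_const) (by
    intro x hx
    rw [hw0]
    have h0 : 0 ≤ x := by linarith [hx.1]
    rw [tr_eq hL0 h0 (by linarith [hx.2]), tr_eq hL0 (by linarith) hbL.le]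
    have : x / L ≤ b / L := by gcongr; exact hx.2
    have h3 : (1 - b / L) / L ≤ (1 - x / L) / L := by gcongr
    linarith)
  filter_upwards [m1, m2, m3, hl (near0_low RH hδ1 (by linarith) he0), hE, hG0]
    with T h1 h2 h3 h4 h5 hF0
  have hFc := Fr_cont T
  have hci : ∀ {g : ℝ → ℝ}, Continuous g → ∀ p q : ℝ, IntervalIntegrable g volume p q :=
    fun hg p q => hg.intervalIntegrable p q
  have c1 : Continuous fun α => tr L α * Fr T α := htc.mul hFc
  have c2 : Continuous fun α => tr L α * mn α := htc.mul mn_cont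
  -- the decomposition
  have d1 : ∫ α, tr L α * Fr T α = (∫ α in (-δ)..δ, tr L α * Fr T α) +
      2 * ((∫ α in δ..a, tr L α * Fr T α) + (∫ α in a..b, tr L α * Fr T α) +
        ∫ α in b..L, tr L α * Fr T α) := by
    rw [int_supp hL0 (fun x hx => by rw [tr_supp hL0 x hx, zero_mul])]
    rw [intervalIntegral.integral_add_adjacent_intervals (hci c1 _ _) (hci c1 _ _),
      intervalIntegral.integral_add_adjacent_intervals (hci c1 _ _) (hci c1 _ _)]
    rw [← intervalIntegral.integral_add_adjacent_intervals (a := -L) (b := -δ) (c := L)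
      (hci c1 _ _) (hci c1 _ _), ← intervalIntegral.integral_add_adjacent_intervals (a := -δ)
      (b := δ) (c := L) (hci c1 _ _) (hci c1 _ _)]
    have : ∫ α in (-L)..(-δ), tr L α * Fr T α = ∫ α in δ..L, tr L α * Fr T α := by
      have h6 := intervalIntegral.integral_comp_neg (a := δ) (b := L)
        (fun α => tr L α * Fr T α)
      rw [← h6]
      refine intervalIntegral.integral_congr fun α _ => ?_
      rw [tr_even, Fr_even]
    rw [this]
    ring
  have d2 : 1 / L - δ - e ≤ ∫ α in (-δ)..δ, tr L α * Fr T α := by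
    have k0 : tr L δ = 1 / L - δ / L ^ 2 := by
      rw [tr_eq hL0 hδ1.le (by linarith)]
      field_simp
    have k1 : tr L δ * ∫ α in (-δ)..δ, Fr T α ≤ ∫ α in (-δ)..δ, tr L α * Fr T α := by
      rw [← intervalIntegral.integral_const_mul]
      refine intervalIntegral.integral_mono_on (by linarith)
        (hci (continuous_const.mul hFc) _ _) (hci c1 _ _) fun α hα => ?_
      apply mul_le_mul_of_nonneg_right _ (hF0 α)
      unfold tr
      apply div_le_div_of_nonneg_right _ hL0.le
      apply max_le_max le_rfl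
      have : |α| ≤ |δ| := by
        rw [abs_of_pos hδ1]
        exact abs_le.2 ⟨hα.1, hα.2⟩
      have : |α| / L ≤ |δ| / L := by gcongr
      linarith
    have k2 : tr L δ * (1 - e) ≤ tr L δ * ∫ α in (-δ)..δ, Fr T α :=
      mul_le_mul_of_nonneg_left h4 (htn δ)
    have k3 : tr L δ ≤ 1 := by
      rw [k0]
      have : 1 / L ≤ 1 := by rw [div_le_one hL0]; exact hL
      have : 0 ≤ δ / L ^ 2 := by positivity
      linarith
    have k4 : δ / L ^ 2 ≤ δ := by
      apply div_le_self hδ1.le
      nlinarith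
    have k5 : tr L δ * e ≤ 1 * e := mul_le_mul_of_nonneg_right k3 he0.le
    have k6 : tr L δ * (1 - e) = 1 / L - δ / L ^ 2 - tr L δ * e := by
      rw [mul_sub, mul_one]
      rw [k0]
    linarith
  have d3 : ∫ α in (0 : ℝ)..L, tr L α * mn α = (∫ α in (0 : ℝ)..δ, tr L α * mn α) +
      (∫ α in δ..a, tr L α * mn α) + (∫ α in a..b, tr L α * mn α) +
        ∫ α in b..L, tr L α * mn α := by
    rw [intervalIntegral.integral_add_adjacent_intervals (hci c2 _ _) (hci c2 _ _),
      intervalIntegral.integral_add_adjacent_intervals (hci c2 _ _) (hci c2 _ _),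
      intervalIntegral.integral_add_adjacent_intervals (hci c2 _ _) (hci c2 _ _)]
  have d4 : ∫ α in (0 : ℝ)..δ, tr L α * mn α ≤ δ := by
    have k1 : ∫ α in (0 : ℝ)..δ, tr L α * mn α ≤ ∫ _ in (0 : ℝ)..δ, (1 : ℝ) := by
      refine intervalIntegral.integral_mono_on hδ1.le (hci c2 _ _) (by simp) fun α hα => ?_
      have k2 : tr L α ≤ 1 := by
        rw [tr_eq hL0 hα.1 (by linarith [hα.2])]
        rw [div_le_one hL0]
        have : 0 ≤ α / L := div_nonneg hα.1 hL0.le
        linarith
      calc tr L α * mn α ≤ 1 * 1 := mul_le_mul k2 (mn_le α) (mn_nonneg α) zero_le_one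
        _ = 1 := one_mul _
    rwa [intervalIntegral.integral_const, smul_eq_mul, mul_one, sub_zero] at k1
  rw [tr_mn hL] at d3
  have d5 : ∀ g : ℝ → ℝ, Continuous g → ∫ α in a..b, (tr L α - w0) * g α =
      (∫ α in a..b, tr L α * g α) - w0 * ∫ α in a..b, g α := by
    intro g hg
    have k1 : Continuous fun α => tr L α * g α := htc.mul hg
    have k2 : Continuous fun α => w0 * g α := continuous_const.mul hg
    rw [← intervalIntegral.integral_const_mul,
      ← intervalIntegral.integral_sub (hci k1 _ _) (hci k2 _ _)]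
    refine intervalIntegral.integral_congr fun x _ => ?_
    ring
  rw [d5 _ hFc, d5 _ mn_cont] at h3
  have hRR : 1 / (2 * L) = 1 / L / 2 := by field_simp
  rw [hRR] at d3
  have hL2 : 0 ≤ 1 / (6 * L ^ 2) := by positivity
  have k2 : w0 * ∫ α in a..b, Fr T α ≤
      w0 * ((∫ α in a..b, mn α) + E * L ^ 2 / (2 * (L - b)) + ε) := by
    have e1 : w0 * (E * L ^ 2 / (2 * (L - b))) = E / 2 := by
      rw [hw0']
      have : L - b ≠ 0 := by linarith
      field_simp
    have e2 : w0 * ((∫ α in a..b, mn α) + E * L ^ 2 / (2 * (L - b)) + ε) =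
        w0 * (∫ α in a..b, mn α) + E / 2 + 8 * e := by
      rw [mul_add, mul_add, e1, he]
      ring
    rw [e2]
    linarith
  exact le_of_mul_le_mul_left k2 hw1

/-- the means converge if they are bounded from below and there are few close pairs -/
theorem mean_of_low (RH : RiemannHypothesis) (hl : l ≤ atTop) (hlo : MeanLo l) (hr : Repo l 1) :
    MeanLim l := by
  have hF := o_imp hl one_pos (by norm_num) hr
  intro a b ha hab
  rw [tendsto_order]
  constructor
  · intro c hc
    filter_upwards [hlo a b ha hab (((∫ α in a..b, mn α) - c) / 2) (by linarith)] with T hT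
    linarith
  · intro c hc
    obtain ⟨ε, hε⟩ : ∃ ε : ℝ, ε = (c - ∫ α in a..b, mn α) / 4 := ⟨_, rfl⟩
    have hε0 : 0 < ε := by rw [hε]; linarith
    obtain ⟨L0, hL01, hL0⟩ := hF ε hε0
    obtain ⟨L, hL⟩ : ∃ L : ℝ, L = max L0 (2 * b) := ⟨_, rfl⟩
    have hLL : L0 ≤ L := by rw [hL]; exact le_max_left _ _
    have hLb : 2 * b ≤ L := by rw [hL]; exact le_max_right _ _
    have hL1 : 1 ≤ L := hL01.trans hLL
    have hLp : 0 < L := by linarith
    have hE : ∀ᶠ T in l, ∫ α, tr L α * Fr T α ≤ 1 + 2 * ε / L := by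
      filter_upwards [hL0 L hLL] with T hT
      have h1 := tr_of_FJ (T := T) hLp (C := ε) (θ := 1) (ε := 0) (by linarith)
      rw [Real.rpow_one, mul_zero, zero_div, add_zero] at h1
      exact h1
    filter_upwards [up_quant RH hl hlo hL1 hE ha hab (by linarith) hε0] with T hT
    have h2 : 2 * ε / L * L ^ 2 / (2 * (L - b)) ≤ 2 * ε := by
      have h3 : 0 < L - b := by linarith
      rw [div_le_iff₀ (by positivity)]
      have h4 : 2 * ε / L * L ^ 2 = 2 * ε * L := by field_simp
      rw [h4]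
      nlinarith
    linarith

/-- the converse -/
theorem rep_of_mean (RH : RiemannHypothesis) (hl : l ≤ atTop) (h : MeanLim l) : Repo l 1 := by
  refine o_conv hl one_pos ?_
  intro η hη
  obtain ⟨L0, hL0⟩ : ∃ L0 : ℝ, L0 = max 1 (1 / η) := ⟨_, rfl⟩
  have h1 : 1 ≤ L0 := by rw [hL0]; exact le_max_left _ _
  have h2 : 1 / η ≤ L0 := by rw [hL0]; exact le_max_right _ _
  refine ⟨L0, h1, fun L hL => ?_⟩
  have hL1 : 1 ≤ L := h1.trans hL
  have hLp : 0 < L := by linarith
  have key := all_test RH hl h (adm_tr hLp) hLp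
  have hval : tr L 0 + ∫ α, mn α * tr L α = 1 + 1 / (3 * L ^ 2) := by
    have e1 : ∫ α, mn α * tr L α = 2 * ∫ α in (0 : ℝ)..L, tr L α * mn α := by
      have hc : Continuous fun α => mn α * tr L α := mn_cont.mul (tr_cont L)
      rw [int_supp hLp (f := fun α => mn α * tr L α) (fun x hx => by
        rw [tr_supp hLp x hx, mul_zero])]
      rw [← intervalIntegral.integral_add_adjacent_intervals (b := 0) (hc.intervalIntegrable _ _)
        (hc.intervalIntegrable _ _)]
      have h3 : ∫ α in (-L)..0, mn α * tr L α = ∫ α in (0 : ℝ)..L, mn α * tr L α := by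
        have := intervalIntegral.integral_comp_neg (a := (0 : ℝ)) (b := L)
          fun α : ℝ => mn α * tr L α
        rw [neg_zero] at this
        rw [← this]
        refine intervalIntegral.integral_congr fun α _ => ?_
        show mn (-α) * tr L (-α) = _
        rw [tr_even, mn_even]
      rw [h3]
      have h4 : ∫ α in (0 : ℝ)..L, mn α * tr L α = ∫ α in (0 : ℝ)..L, tr L α * mn α := by
        refine intervalIntegral.integral_congr fun α _ => ?_
        ring
      rw [h4]
      ring
    rw [e1, tr_mn hL1, tr_eq hLp le_rfl hLp.le]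
    field_simp
    ring
  rw [hval] at key
  have h5 : 1 + 1 / (3 * L ^ 2) < 1 + 1 / L ^ 2 := by
    have : 1 / (3 * L ^ 2) < 1 / L ^ 2 := by
      apply one_div_lt_one_div_of_lt (by positivity)
      nlinarith [sq_pos_of_pos hLp]
    linarith
  filter_upwards [key.eventually (ge_mem_nhds h5)] with T hT
  rw [FJ_tr hLp]
  have h6 := mul_le_mul_of_nonneg_left hT (show 0 ≤ L ^ 2 / 2 by positivity)
  refine h6.trans ?_
  have h7 : L ^ 2 / 2 * (1 + 1 / L ^ 2) = L ^ 2 / 2 + 1 / 2 := by field_simp
  rw [h7, show (2 : ℝ) - 1 = 1 by norm_num, Real.rpow_one]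
  have h8 : 1 ≤ η * L := by
    have := h2.trans hL
    rw [div_le_iff₀ hη] at this
    linarith
  linarith

end Pool.Agent.Zk99.PR
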