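import Pool.Agent.Zk99.PR.D

set_option autoImplicit false

open MeasureTheory Set Filter Topology

namespace Pool.Agent.Zk99.PR

open Pool.Agent.Y749.Rig Pool.Agent.Y749.AH
open Pool.Agent.Y744.G (Montgomery)

variable {l : Filter ℝ} {θ : ℝ}

/-- lower bounds beyond one -/
def LowHalf (l : Filter ℝ) : Prop := ∀ a b : ℝ, 1 ≤ a → a < b → ∀ ε : ℝ, 0 < ε → ∀ᶠ T in l,
  b - a - ε ≤ ∫ α in a..b, Fr T α

lemma mont_of_mean (RH : RiemannHypothesis) (hl : l ≤ atTop) (h : MeanLim l) : Montgomery l := by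
  rw [Pool.Agent.Y744.G.Mont_iff hl]
  intro α β hαβ
  exact Pool.Agent.Y744.Nr_all hl (Aa_lim hl (weak_mean RH hl h)) hαβ

lemma mean_of_mont (RH : RiemannHypothesis) (hl : l ≤ atTop) (h : Montgomery l) : MeanLim l := by
  rw [Pool.Agent.Y744.G.Mont_iff hl] at h
  exact mean_lim RH hl fun R => up_weak hl (weak_win hl h) R

/-- **pair correlation, the lower half and repulsion** -/
theorem mont_iff (RH : RiemannHypothesis) (hl : l ≤ atTop) :
    Montgomery l ↔ LowHalf l ∧ Repo l 1 := by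
  constructor
  · intro h
    have hM := mean_of_mont RH hl h
    refine ⟨fun a b ha hab ε hε => ?_, rep_of_mean RH hl hM⟩
    have h1 := hM a b (by linarith) hab
    rw [mn_high ha hab.le] at h1
    exact h1.eventually (le_mem_nhds (by linarith))
  · rintro ⟨h1, h2⟩
    exact mont_of_mean RH hl (mean_of_low RH hl (meanLo_of RH hl h1) h2)

/-- pointwise lower bounds -/
theorem l1_lim (RH : RiemannHypothesis) (hl : l ≤ atTop)
    (hlow : ∀ A ε : ℝ, 1 < A → 0 < ε → ∀ᶠ T in l, ∀ α ∈ Icc 1 A, 1 - ε ≤ Fr T α)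
    (hr : Repo l 1) {A : ℝ} (hA : 1 < A) :
    Tendsto (fun T => ∫ α in (1 : ℝ)..A, |Fr T α - 1|) l (𝓝 0) := by
  have hlo : LowHalf l := by
    intro a b ha hab ε hε
    filter_upwards [hlow b (ε / (b - a)) (by linarith) (div_pos hε (by linarith))] with T hT
    have hFc := Fr_cont T
    have h1 : ∫ _ in a..b, (1 - ε / (b - a)) ≤ ∫ α in a..b, Fr T α :=
      intervalIntegral.integral_mono_on hab.le (by simp) (hFc.intervalIntegrable _ _)
        fun α hα => hT α ⟨ha.trans hα.1, hα.2⟩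
    rw [intervalIntegral.integral_const, smul_eq_mul] at h1
    have h2 : (b - a) * (1 - ε / (b - a)) = b - a - ε := by
      have : b - a ≠ 0 := by linarith
      field_simp
    linarith
  have hM := mean_of_low RH hl (meanLo_of RH hl hlo) hr 1 A one_pos hA
  rw [mn_high le_rfl hA.le] at hM
  rw [Metric.tendsto_nhds]
  intro ε hε
  obtain ⟨e, he⟩ : ∃ e : ℝ, e = ε / (4 * (A - 1)) := ⟨_, rfl⟩
  have hA1 : 0 < A - 1 := by linarith
  have he0 : 0 < e := by rw [he]; positivity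
  filter_upwards [hlow A e hA he0, Metric.tendsto_nhds.1 hM (ε / 4) (by positivity)] with T h1 h2
  have hFc := Fr_cont T
  have h3 : 0 ≤ ∫ α in (1 : ℝ)..A, |Fr T α - 1| :=
    intervalIntegral.integral_nonneg hA.le fun α _ => abs_nonneg _
  have h4 : ∫ α in (1 : ℝ)..A, |Fr T α - 1| ≤ ∫ α in (1 : ℝ)..A, (Fr T α - 1 + 2 * e) := by
    refine intervalIntegral.integral_mono_on hA.le
      ((hFc.sub continuous_const).abs.intervalIntegrable _ _)
      (((hFc.sub continuous_const).add continuous_const).intervalIntegrable _ _) fun α hα => ?_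
    have := h1 α hα
    rw [abs_le]
    constructor <;> linarith
  have h5 : ∫ α in (1 : ℝ)..A, (Fr T α - 1 + 2 * e) =
      (∫ α in (1 : ℝ)..A, Fr T α) - (A - 1) + 2 * e * (A - 1) := by
    have e1 : ∀ α : ℝ, Fr T α - 1 + 2 * e = Fr T α + (2 * e - 1) := fun α => by ring
    simp_rw [e1]
    rw [intervalIntegral.integral_add (hFc.intervalIntegrable _ _) (by simp),
      intervalIntegral.integral_const, smul_eq_mul]
    ring
  have h6 : 2 * e * (A - 1) = ε / 2 := by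
    rw [he]
    field_simp
    ring
  rw [Real.dist_eq] at h2 ⊢
  rw [sub_zero, abs_of_nonneg h3]
  have := (abs_lt.1 h2).2
  linarith

lemma AA_one : AA 1 = 5 := by
  unfold AA
  rw [show (1 : ℝ) - 2 = -1 by norm_num, Real.rpow_one, Real.rpow_neg_one]
  norm_num

/-- **the total excess is bounded by the density of the close pairs** -/
theorem excess (RH : RiemannHypothesis) (hl : l ≤ atTop) (hlo : MeanLo l) {c δ0 : ℝ} (hc : 0 ≤ c)
    (hδ0 : 0 < δ0) (h : ∀ δ : ℝ, 0 < δ → δ ≤ δ0 → ∀ η : ℝ, 0 < η → ∀ᶠ T in l,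
      PP T δ ≤ 1 + c * δ + η) {a b : ℝ} (ha : 0 < a) (hab : a < b) {ε : ℝ} (hε : 0 < ε) :
    ∀ᶠ T in l, ∫ α in a..b, Fr T α ≤ (∫ α in a..b, mn α) + 5 / 2 * c + ε := by
  obtain ⟨K, hK, hP⟩ := pair_fej
  obtain ⟨Q, hQ⟩ : ∃ Q : ℝ, Q = K * (1 + 4 / δ0 ^ 2) := ⟨_, rfl⟩
  have hQ0 : 0 ≤ Q := by rw [hQ]; positivity
  obtain ⟨D, hD⟩ : ∃ D : ℝ, D = 1 + 1 / δ0 + (10 * c * b + 2 * Q) / ε := ⟨_, rfl⟩
  have hb : 0 < b := by linarith
  have hD1 : 1 ≤ D := by
    rw [hD]
    have : 0 ≤ 1 / δ0 + (10 * c * b + 2 * Q) / ε := by positivity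
    linarith
  obtain ⟨L, hL⟩ : ∃ L : ℝ, L = b + D := ⟨_, rfl⟩
  have hLb : L - b = D := by rw [hL]; ring
  have hL1 : 1 ≤ L := by linarith
  have hLp : 0 < L := by linarith
  have hLδ : 1 / δ0 ≤ L := by
    have : 0 ≤ (10 * c * b + 2 * Q) / ε := by positivity
    rw [hL, hD]
    linarith
  have key := hP hl one_pos (by norm_num : (1 : ℝ) < 2) hc hδ0 (fun δ h1 h2 η hη => by
    rw [Real.rpow_one]
    exact h δ h1 h2 η hη) L hLδ (ε * D / (2 * L ^ 2)) (by positivity)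
  rw [AA_one, Real.rpow_one, ← hQ] at key
  have hE : ∀ᶠ T in l, ∫ α, tr L α * Fr T α ≤
      1 + (c * 5 / L + Q / L ^ 2 + ε * D / (2 * L ^ 2)) := by
    filter_upwards [key] with T hT
    linarith
  filter_upwards [up_quant RH hl hlo hL1 hE ha hab (by linarith)
    (show 0 < ε / 4 by positivity)] with T hT
  refine hT.trans ?_
  rw [hLb]
  have e1 : (c * 5 / L + Q / L ^ 2 + ε * D / (2 * L ^ 2)) * L ^ 2 / (2 * D) =
      5 / 2 * c + (5 * c * b + Q) / (2 * D) + ε / 4 := by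
    have hD0 : D ≠ 0 := by linarith
    have e2 : (c * 5 / L + Q / L ^ 2 + ε * D / (2 * L ^ 2)) * L ^ 2 =
        5 * c * L + Q + ε * D / 2 := by
      field_simp
    rw [e2, hL]
    field_simp
    ring
  have e3 : (5 * c * b + Q) / (2 * D) ≤ ε / 4 := by
    rw [div_le_iff₀ (by positivity)]
    have h5 : (10 * c * b + 2 * Q) / ε ≤ D := by
      rw [hD]
      have : 0 < 1 / δ0 := by positivity
      linarith
    rw [div_le_iff₀ hε] at h5
    linarith
  rw [e1]
  linarith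

/-- upper bounds for the plain means -/
def MeanO (l : Filter ℝ) (θ : ℝ) : Prop := ∃ C : ℝ, ∀ b : ℝ, 1 ≤ b → ∀ ε : ℝ, 0 < ε →
  ∀ᶠ T in l, ∫ α in (0 : ℝ)..b, Fr T α ≤ b + C * b ^ (1 - θ) + ε

lemma half_int (T δ : ℝ) : ∫ α in (0 : ℝ)..δ, Fr T α = (∫ α in (-δ)..δ, Fr T α) / 2 := by
  have hFc := Fr_cont T
  rw [← intervalIntegral.integral_add_adjacent_intervals (a := -δ) (b := 0) (c := δ)
    (hFc.intervalIntegrable _ _) (hFc.intervalIntegrable _ _)]
  have h1 : ∫ α in (-δ)..0, Fr T α = ∫ α in (0 : ℝ)..δ, Fr T α := by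
    have := intervalIntegral.integral_comp_neg (a := (0 : ℝ)) (b := δ) fun α : ℝ => Fr T α
    rw [neg_zero] at this
    rw [← this]
    refine intervalIntegral.integral_congr fun α _ => ?_
    show Fr T (-α) = Fr T α
    rw [Fr_even]
  rw [h1]
  ring

theorem mean_of_rep (RH : RiemannHypothesis) (hl : l ≤ atTop) (hlo : MeanLo l) (hθ : 0 < θ)
    (hθ1 : θ ≤ 1) (h : RepO l θ) : MeanO l θ := by
  obtain ⟨K, hK, hP⟩ := pair_fej
  obtain ⟨C, hC⟩ := h
  obtain ⟨c, hc⟩ : ∃ c : ℝ, c = max C 0 := ⟨_, rfl⟩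
  have hc0 : 0 ≤ c := by rw [hc]; exact le_max_right _ _
  have hcC : C ≤ c := by rw [hc]; exact le_max_left _ _
  have hθ2 : θ < 2 := by linarith
  refine ⟨c * AA θ * 2 ^ (1 - θ) + 5 * K / 2, fun b hb ε hε => ?_⟩
  obtain ⟨L, hL⟩ : ∃ L : ℝ, L = 2 * b := ⟨_, rfl⟩
  have hb0 : 0 < b := by linarith
  have hLp : 0 < L := by rw [hL]; positivity
  have hL1 : 1 ≤ L := by linarith
  have hLb : L - b = b := by rw [hL]; ring
  obtain ⟨δ0, hδ0, hnear⟩ := near0 RH (η := ε / 4) (by positivity)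
  obtain ⟨a, ha⟩ : ∃ a : ℝ, a = min δ0 (1 / 2) := ⟨_, rfl⟩
  have ha0 : 0 < a := by rw [ha]; exact lt_min hδ0 (by norm_num)
  have haδ : a ≤ δ0 := by rw [ha]; exact min_le_left _ _
  have ha1 : a ≤ 1 / 2 := by rw [ha]; exact min_le_right _ _
  have key := hP hl hθ hθ2 hc0 (δ0 := 1) one_pos (fun δ h1 h2 η hη => by
    filter_upwards [hC δ h1 h2 η hη] with T hT
    have : C * δ ^ θ ≤ c * δ ^ θ := mul_le_mul_of_nonneg_right hcC (by positivity)
    linarith) L (by linarith) (ε * b / (2 * L ^ 2)) (by positivity)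
  have hE : ∀ᶠ T in l, ∫ α, tr L α * Fr T α ≤
      1 + (c * AA θ / L ^ θ + K * (1 + 4 / 1 ^ 2) / L ^ 2 + ε * b / (2 * L ^ 2)) := by
    filter_upwards [key] with T hT
    linarith
  filter_upwards [up_quant RH hl hlo hL1 hE ha0 (show a < b by linarith) (by linarith)
    (show 0 < ε / 4 by positivity), hl (hnear a ha0 haδ)] with T h1 h2
  have hFc := Fr_cont T
  rw [← intervalIntegral.integral_add_adjacent_intervals (a := 0) (b := a) (c := b)
    (hFc.intervalIntegrable _ _) (hFc.intervalIntegrable _ _), half_int]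
  have h3 : ∫ α in a..b, mn α ≤ b - 1 / 2 := by
    have hmi : ∀ p q : ℝ, IntervalIntegrable mn volume p q :=
      fun p q => mn_cont.intervalIntegrable p q
    rw [← intervalIntegral.integral_add_adjacent_intervals (b := 1) (hmi _ _) (hmi _ _),
      mn_low ha0.le (by linarith) le_rfl, mn_high le_rfl hb]
    nlinarith [sq_nonneg a]
  have h4 : (c * AA θ / L ^ θ + K * (1 + 4 / 1 ^ 2) / L ^ 2 + ε * b / (2 * L ^ 2)) * L ^ 2 /
      (2 * (L - b)) = c * AA θ * (L ^ (2 - θ) / L) + 5 * K / 2 * (1 / b) + ε / 4 := by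
    have hLθ : 0 < L ^ θ := Real.rpow_pos_of_pos hLp θ
    rw [hLb, pow_sub' hLp]
    have e1 : 2 * b = L := hL.symm
    rw [e1]
    have e2 : b = L / 2 := by rw [hL]; ring
    rw [e2]
    field_simp
    ring
  have h5 : L ^ (2 - θ) / L = 2 ^ (1 - θ) * b ^ (1 - θ) := by
    rw [← Real.mul_rpow (by norm_num) hb0.le, ← hL]
    rw [show (2 : ℝ) - θ = (1 - θ) + 1 by ring, Real.rpow_add hLp, Real.rpow_one]
    field_simp
  have h6 : 1 / b ≤ b ^ (1 - θ) := by
    have g1 : 1 / b ≤ 1 := by rw [div_le_one hb0]; exact hb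
    exact g1.trans (Real.one_le_rpow hb (by linarith))
  have h7 := mul_le_mul_of_nonneg_left h6 (show 0 ≤ 5 * K / 2 by positivity)
  rw [h4, h5] at h1
  linarith

lemma abel (g : ℕ → ℝ) (n : ℝ) (m : ℕ) : ∑ k ∈ Finset.range m, (n - k) * (g (k + 1) - g k) =
    (n - m) * g m + (∑ k ∈ Finset.range m, g (k + 1)) - n * g 0 := by
  induction m with
  | zero => simp
  | succ m ih =>
    rw [Finset.sum_range_succ, Finset.sum_range_succ, ih]
    push_cast
    ring

theorem fej_of_mean (hl : l ≤ atTop) (hθ : 0 < θ) (hθ1 : θ ≤ 1) (h : MeanO l θ) : FejO l θ := by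
  obtain ⟨C, hC⟩ := h
  obtain ⟨c, hc⟩ : ∃ c : ℝ, c = max C 0 := ⟨_, rfl⟩
  have hc0 : 0 ≤ c := by rw [hc]; exact le_max_right _ _
  have hcC : C ≤ c := by rw [hc]; exact le_max_left _ _
  refine ⟨1 + 2 * c, fun L hL ε hε => ?_⟩
  have hL0 : 0 < L := by linarith
  obtain ⟨n, hn⟩ := exists_nat_gt (L ^ 2 / ε)
  have hn0 : (0 : ℝ) < n := lt_of_le_of_lt (by positivity) hn
  obtain ⟨d, hd⟩ : ∃ d : ℝ, d = L / n := ⟨_, rfl⟩
  have hd0 : 0 < d := by rw [hd]; positivity
  have hnd : (n : ℝ) * d = L := by rw [hd]; field_simp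
  have hev : ∀ᶠ T in l, ∀ k ∈ Finset.range n,
      ∫ α in (0 : ℝ)..(max 1 ((k + 1 : ℕ) * d)), Fr T α ≤
        max 1 ((k + 1 : ℕ) * d) + c * (max 1 ((k + 1 : ℕ) * d)) ^ (1 - θ) + ε / (2 * L) := by
    rw [Filter.eventually_all_finset]
    intro k _
    filter_upwards [hC (max 1 ((k + 1 : ℕ) * d)) (le_max_left _ _) (ε / (2 * L))
      (by positivity)] with T hT
    have h1 : C * (max 1 (((k + 1 : ℕ) : ℝ) * d)) ^ (1 - θ) ≤
        c * (max 1 (((k + 1 : ℕ) : ℝ) * d)) ^ (1 - θ) :=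
      mul_le_mul_of_nonneg_right hcC (by positivity)
    linarith
  filter_upwards [hev, hl (eventually_ge_atTop 10)] with T hT hT10
  have hFc := Fr_cont T
  have hF0 := Fr_nonneg hT10
  have hci : ∀ {g : ℝ → ℝ}, Continuous g → ∀ p q : ℝ, IntervalIntegrable g volume p q :=
    fun hg p q => hg.intervalIntegrable p q
  obtain ⟨g, hg⟩ : ∃ g : ℕ → ℝ, ∀ k, g k = ∫ α in (0 : ℝ)..(k * d), Fr T α := ⟨_, fun k => rfl⟩
  have hgk : ∀ k ∈ Finset.range n, g (k + 1) ≤
      (k + 1 : ℕ) * d + 1 + 2 * c * L ^ (1 - θ) + ε / (2 * L) - c * L ^ (1 - θ) := by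
    intro k hk
    have hk' : (k : ℝ) + 1 ≤ n := by exact_mod_cast Finset.mem_range.1 hk
    have hkL : ((k + 1 : ℕ) : ℝ) * d ≤ L := by
      push_cast
      rw [← hnd]
      gcongr
    have h1 := hT k hk
    have h2 : g (k + 1) ≤ ∫ α in (0 : ℝ)..(max 1 ((k + 1 : ℕ) * d)), Fr T α := by
      rw [hg]
      exact intervalIntegral.integral_mono_interval le_rfl (by positivity) (le_max_right _ _)
        (ae_of_all _ fun α => hF0 α) (hFc.intervalIntegrable _ _)
    have h3 : max 1 (((k + 1 : ℕ) : ℝ) * d) ≤ ((k + 1 : ℕ) : ℝ) * d + 1 :=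
      max_le (by have : 0 ≤ ((k + 1 : ℕ) : ℝ) * d := by positivity
                 linarith) (by linarith)
    have h4 : (max 1 (((k + 1 : ℕ) : ℝ) * d)) ^ (1 - θ) ≤ L ^ (1 - θ) :=
      Real.rpow_le_rpow (by positivity) (max_le hL hkL) (by linarith)
    have h5 := mul_le_mul_of_nonneg_left h4 hc0
    linarith
  have h1 : FJ T L ≤ ∑ k ∈ Finset.range n, (L - k * d) * (g (k + 1) - g k) := by
    unfold FJ
    have c1 : Continuous fun α => (L - α) * Fr T α := by fun_prop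
    have s1 : ∑ k ∈ Finset.range n, ∫ α in ((k : ℕ) * d)..((k + 1 : ℕ) * d), (L - α) * Fr T α =
        ∫ α in (0 : ℝ)..L, (L - α) * Fr T α := by
      have := intervalIntegral.sum_integral_adjacent_intervals (μ := volume)
        (f := fun α => (L - α) * Fr T α) (a := fun k : ℕ => (k : ℝ) * d) (n := n)
        fun k _ => hci c1 _ _
      simp only [Nat.cast_zero, zero_mul] at this
      rw [hnd] at this
      exact this
    rw [← s1]
    refine Finset.sum_le_sum fun k hk => ?_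
    have hle : (k : ℝ) * d ≤ ((k + 1 : ℕ) : ℝ) * d := by
      push_cast
      nlinarith
    have e1 : g (k + 1) - g k = ∫ α in ((k : ℕ) * d)..((k + 1 : ℕ) * d), Fr T α := by
      rw [hg, hg, intervalIntegral.integral_interval_sub_left (hci hFc _ _) (hci hFc _ _)]
    rw [e1, ← intervalIntegral.integral_const_mul]
    refine intervalIntegral.integral_mono_on hle (hci c1 _ _)
      (hci (continuous_const.mul hFc) _ _) fun α hα => ?_
    exact mul_le_mul_of_nonneg_right (by linarith [hα.1]) (hF0 α)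
  have h2 : ∑ k ∈ Finset.range n, (L - k * d) * (g (k + 1) - g k) =
      d * ∑ k ∈ Finset.range n, g (k + 1) := by
    have e1 : ∀ k : ℕ, (L - k * d) * (g (k + 1) - g k) = d * (((n : ℝ) - k) * (g (k + 1) - g k)) := by
      intro k
      rw [← hnd]
      ring
    simp_rw [e1]
    rw [← Finset.mul_sum, abel g n n, hg 0]
    simp
  have h3 := Finset.sum_le_sum hgk
  have h4 : ∑ k ∈ Finset.range n, (((k + 1 : ℕ) : ℝ) * d + 1 + 2 * c * L ^ (1 - θ) +
      ε / (2 * L) - c * L ^ (1 - θ)) =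
      (n * (n + 1) / 2) * d + n * (1 + c * L ^ (1 - θ) + ε / (2 * L)) := by
    have e1 : ∀ m : ℕ, ∑ k ∈ Finset.range m, (((k + 1 : ℕ) : ℝ) * d + 1 + 2 * c * L ^ (1 - θ) +
      ε / (2 * L) - c * L ^ (1 - θ)) =
      (m * (m + 1) / 2) * d + m * (1 + c * L ^ (1 - θ) + ε / (2 * L)) := by
      intro m
      induction m with
      | zero => simp
      | succ m ih =>
        rw [Finset.sum_range_succ, ih]
        push_cast
        ring
    exact e1 n
  rw [h4] at h3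
  have h5 : d * ∑ k ∈ Finset.range n, g (k + 1) ≤
      d * ((n * (n + 1) / 2) * d + n * (1 + c * L ^ (1 - θ) + ε / (2 * L))) :=
    mul_le_mul_of_nonneg_left h3 hd0.le
  have h6 : d * ((n * (n + 1) / 2) * d + n * (1 + c * L ^ (1 - θ) + ε / (2 * L))) =
      L ^ 2 / 2 + L * d / 2 + L + c * (L * L ^ (1 - θ)) + ε / 2 := by
    have e1 : d * ((n * (n + 1) / 2) * d + n * (1 + c * L ^ (1 - θ) + ε / (2 * L))) =
        (n * d) ^ 2 / 2 + (n * d) * d / 2 + (n * d) * (1 + c * L ^ (1 - θ) + ε / (2 * L)) := by ring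
    rw [e1, hnd]
    field_simp
    ring
  have h7 : L * L ^ (1 - θ) = L ^ (2 - θ) := by
    rw [show (2 : ℝ) - θ = 1 + (1 - θ) by ring, Real.rpow_add hL0, Real.rpow_one]
  have h8 : L ≤ L ^ (2 - θ) := by
    have := Real.rpow_le_rpow_of_exponent_le hL (show (1 : ℝ) ≤ 2 - θ by linarith)
    rwa [Real.rpow_one] at this
  have h9 : L * d ≤ ε := by
    rw [hd, mul_div_assoc', div_le_iff₀ hn0]
    rw [div_lt_iff₀ hε] at hn
    nlinarith
  have h10 : 0 ≤ c * L ^ (2 - θ) := by positivity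
  rw [h6, h7] at h5
  rw [h2] at h1
  linarith

theorem mean_iff (RH : RiemannHypothesis) (hl : l ≤ atTop) (hlo : LowHalf l) (hθ : 0 < θ)
    (hθ1 : θ ≤ 1) : RepO l θ ↔ MeanO l θ :=
  ⟨mean_of_rep RH hl (meanLo_of RH hl hlo) hθ hθ1,
    fun h => O_conv hl hθ (fej_of_mean hl hθ hθ1 h)⟩

end Pool.Agent.Zk99.PR
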